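import Pool.Agent.K9h80.WN.Sand
import Pool.Agent.H934R2.Expl.Model

/-!
# The random cluster measure in a rectangle with Dobrushin boundary conditions
-/

set_option autoImplicit false

namespace Pool.Agent.K9h80.WN

open H974 H973 Finset

/-! ### clusters -/

/-- the clusters of the vertices of `V` in the graph with the edges `G` -/
def cls (V : Finset Vtx) (G : Set Edg) : Set (Set Vtx) := {C | ∃ v ∈ V, C = {w | Reach G v w}}

theorem cls_eq (V : Finset Vtx) (G : Set Edg) :
    cls V G = (fun v => {w | Reach G v w}) '' (↑V : Set Vtx) := by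
  ext C
  constructor
  · rintro ⟨v, hv, rfl⟩
    exact ⟨v, hv, rfl⟩
  · rintro ⟨v, hv, rfl⟩
    exact ⟨v, hv, rfl⟩

theorem cls_finite (V : Finset Vtx) (G : Set Edg) : (cls V G).Finite := by
  rw [cls_eq]
  exact V.finite_toSet.image _

theorem cl_eq {G : Set Edg} {u v : Vtx} (h : Reach G u v) :
    {w | Reach G u w} = {w | Reach G v w} := by
  ext w
  exact ⟨fun h2 => h.symm.trans h2, fun h2 => h.trans h2⟩

theorem cls_insert_le (V : Finset Vtx) (G : Set Edg) (e : Edg) :
    (cls V (insert e G)).ncard ≤ (cls V G).ncard := by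
  have h : cls V (insert e G) =
      (fun C : Set Vtx => {w | ∃ v ∈ C, Reach (insert e G) v w}) '' (cls V G) := by
    ext C
    have key : ∀ v, {w | Reach (insert e G) v w} =
        {w | ∃ v' ∈ {u | Reach G v u}, Reach (insert e G) v' w} := by
      intro v
      ext w
      constructor
      · intro hw
        exact ⟨v, Reach.refl _ _, hw⟩
      · rintro ⟨v', hv', hw⟩
        have h1 : Reach G v v' := hv'
        exact (h1.mono (Set.subset_insert _ _)).trans hw
    constructor
    · rintro ⟨v, hv, rfl⟩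
      exact ⟨_, ⟨v, hv, rfl⟩, (key v).symm⟩
    · rintro ⟨_, ⟨v, hv, rfl⟩, rfl⟩
      exact ⟨v, hv, (key v).symm⟩
  rw [h]
  exact Set.ncard_image_le (cls_finite V G)

theorem cls_le_insert (V : Finset Vtx) (G : Set Edg) {e : Edg} (he : src e ∈ V) :
    (cls V G).ncard ≤ (cls V (insert e G)).ncard + 1 := by
  set a : Set Vtx := {w | Reach (insert e G) (src e) w} with ha
  have ha' : a ∈ cls V (insert e G) := ⟨src e, he, rfl⟩
  have hsub : cls V G ⊆ (cls V (insert e G) \ {a}) ∪
      {{w | Reach G (src e) w}, {w | Reach G (tgt e) w}} := by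
    rintro C ⟨v, hv, rfl⟩
    by_cases h1 : Reach G v (src e)
    · exact Or.inr (Or.inl (cl_eq h1))
    by_cases h2 : Reach G v (tgt e)
    · exact Or.inr (Or.inr (cl_eq h2))
    have h3 : {w | Reach G v w} = {w | Reach (insert e G) v w} := by
      ext w
      constructor
      · intro h
        have h' : Reach G v w := h
        exact h'.mono (Set.subset_insert _ _)
      · intro h
        have h' : Reach (insert e G) v w := h
        clear h
        show Reach G v w
        induction h' with
        | refl => exact Reach.refl _ _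
        | @tail w w' _ hs ih =>
          obtain ⟨e', he', hc⟩ := hs
          rcases he' with he' | he'
          · subst he'
            exfalso
            rcases hc with ⟨h4, _⟩ | ⟨_, h4⟩
            · exact h1 (h4 ▸ ih)
            · exact h2 (h4 ▸ ih)
          · exact ih.trans (Adj.reach ⟨e', he', hc⟩)
    refine Or.inl ⟨⟨v, hv, h3⟩, ?_⟩
    intro h4
    have h4' : {w | Reach G v w} = a := h4
    have h5 : src e ∈ {w | Reach G v w} := by
      rw [h4', ha]
      exact Reach.refl _ _
    exact h1 h5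
  have hfin := cls_finite V (insert e G)
  calc (cls V G).ncard
      ≤ ((cls V (insert e G) \ {a}) ∪
        {{w | Reach G (src e) w}, {w | Reach G (tgt e) w}}).ncard :=
        Set.ncard_le_ncard hsub ((hfin.subset Set.sdiff_subset).union (Set.toFinite _))
    _ ≤ (cls V (insert e G) \ {a}).ncard +
        Set.ncard {{w | Reach G (src e) w}, {w | Reach G (tgt e) w}} := Set.ncard_union_le _ _
    _ ≤ (cls V (insert e G) \ {a}).ncard + 2 := by
        gcongr
        exact (Set.ncard_insert_le _ _).trans (by rw [Set.ncard_singleton])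
    _ = (cls V (insert e G)).ncard + 1 := by
        rw [← Set.ncard_sdiff_singleton_add_one ha' hfin]

/-! ### the weight -/

theorem CondIn.mono {E : Type*} [DecidableEq E] {α β α' β' : ℝ} {S : Finset E}
    {w : Finset E → ℝ} (h : CondIn α β S w) (h1 : α' ≤ α) (h2 : β ≤ β') :
    CondIn α' β' S w := by
  refine ⟨h.1, fun e he F hF heF => ?_⟩
  obtain ⟨h3, h4⟩ := h.2 e he F hF heF
  have h5 := h.1 F hF
  have h6 := h.1 (insert e F) (insert_subset_iff.mpr ⟨he, hF⟩)
  constructor <;> nlinarith

/-- the conditional probabilities of an independent model -/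
theorem condIn_prod {E : Type*} [DecidableEq E] {β : ℝ} (h0 : 0 < β) (h1 : β < 1) (S : Finset E) :
    CondIn β β S (fun F => (∏ _e ∈ F, β) * ∏ _e ∈ S \ F, (1 - β)) := by
  have hb : 0 < 1 - β := by linarith
  refine ⟨fun F _ => by positivity, fun e he F hF heF => ?_⟩
  have e1 : S \ F = insert e (S \ insert e F) := by
    ext x
    rw [mem_insert, mem_sdiff, mem_sdiff, mem_insert]
    constructor
    · rintro ⟨a, b⟩
      by_cases hx : x = e
      · exact Or.inl hx
      · exact Or.inr ⟨a, fun h => h.elim hx b⟩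
    · rintro (rfl | ⟨a, b⟩)
      · exact ⟨he, heF⟩
      · exact ⟨a, fun h => b (Or.inr h)⟩
  have e2 : e ∉ S \ insert e F := by simp
  beta_reduce
  rw [e1, prod_insert e2, prod_insert heF]
  constructor <;> apply le_of_eq <;> ring

/-- the number of open clusters, the edges of the first arc being open -/
noncomputable def kl (R : H934E.Rect) (δ : ℝ) (F : Finset Edg) : ℕ :=
  (cls (R.verts δ) (↑F ∪ R.wired δ)).ncard

open Classical in
/-- the edges which are not wired -/
noncomputable def free (R : H934E.Rect) (δ : ℝ) : Finset Edg :=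
  (R.edges δ).filter (fun e => e ∉ R.wired δ)

theorem mem_free {R : H934E.Rect} {δ : ℝ} {e : Edg} :
    e ∈ free R δ ↔ e ∈ R.edges δ ∧ e ∉ R.wired δ := by
  classical
  unfold free
  rw [mem_filter]

theorem free_sub (R : H934E.Rect) (δ : ℝ) : free R δ ⊆ R.edges δ :=
  fun _ h => (mem_free.1 h).1

/-- the weight of the random cluster model -/
noncomputable def wt (R : H934E.Rect) (δ p q : ℝ) (F : Finset Edg) : ℝ :=
  (p / (1 - p)) ^ F.card * q ^ kl R δ F

theorem kl_insert (R : H934E.Rect) (δ : ℝ) {e : Edg} (he : e ∈ R.edges δ) (F : Finset Edg) :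
    kl R δ F = kl R δ (insert e F) ∨ kl R δ F = kl R δ (insert e F) + 1 := by
  have hs : src e ∈ R.verts δ := by
    unfold H934E.Rect.edges at he
    rw [mem_ES] at he
    exact he.1
  have h1 := cls_insert_le (R.verts δ) (↑F ∪ R.wired δ) e
  have h2 := cls_le_insert (R.verts δ) (↑F ∪ R.wired δ) hs
  have e1 : (↑(insert e F) : Set Edg) ∪ R.wired δ = insert e (↑F ∪ R.wired δ) := by
    rw [coe_insert, Set.insert_union]
  unfold kl
  rw [e1]
  omega

theorem condIn_fk (R : H934E.Rect) (δ : ℝ) {p q : ℝ} (hp0 : 0 < p) (hp1 : p < 1) (hq : 0 < q)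
    (hs : |p - 1/2| + |q - 1| ≤ 1/8) :
    CondIn (1/2 - 2 * (|p - 1/2| + |q - 1|)) (1/2 + 2 * (|p - 1/2| + |q - 1|)) (free R δ)
      (wt R δ p q) := by
  have hp : 0 < 1 - p := by linarith
  refine ⟨fun F _ => by unfold wt; positivity, fun e he F hF heF => ?_⟩
  obtain ⟨u, hu⟩ : ∃ u, u = |p - 1/2| := ⟨_, rfl⟩
  obtain ⟨v, hv⟩ : ∃ v, v = |q - 1| := ⟨_, rfl⟩
  have u1 := abs_le.mp hu.ge
  have v1 := abs_le.mp hv.ge
  have u0 : 0 ≤ u := hu ▸ abs_nonneg _
  have v0 : 0 ≤ v := hv ▸ abs_nonneg _
  rw [← hu, ← hv] at hs ⊢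
  have hk := kl_insert R δ (free_sub R δ he) F
  unfold wt
  rw [card_insert_of_notMem heF]
  set c := (p / (1 - p)) ^ F.card with hc
  have c0 : 0 < c := by positivity
  obtain ⟨A, hA⟩ : ∃ A, A = c * q ^ kl R δ (insert e F) / (1 - p) := ⟨_, rfl⟩
  have A0 : 0 < A := by rw [hA]; positivity
  have e1 : (p / (1 - p)) ^ (F.card + 1) * q ^ kl R δ (insert e F) = p * A := by
    rw [pow_succ, hA, hc]; field_simp
  rw [e1]
  rcases hk with hk | hk
  · have e2 : c * q ^ kl R δ F = (1 - p) * A := by
      rw [hk, hA]; field_simp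
    rw [e2]
    constructor
    · nlinarith
    · nlinarith
  · have e2 : c * q ^ kl R δ F = q * (1 - p) * A := by
      rw [hk, hA, pow_succ]; field_simp
    rw [e2]
    have d1 : 7/8 ≤ p + q * (1 - p) := by nlinarith
    have d2 : -v ≤ p + q * (1 - p) - 1 := by nlinarith
    have d3 : p + q * (1 - p) - 1 ≤ v := by nlinarith
    obtain ⟨d, hd⟩ : ∃ d, d = p + q * (1 - p) := ⟨_, rfl⟩
    rw [← hd] at d1 d2 d3
    have e3 : p * A + q * (1 - p) * A = d * A := by rw [hd]; ring
    rw [e3]
    constructor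
    · rw [← mul_assoc]
      apply mul_le_mul_of_nonneg_right _ A0.le
      nlinarith [mul_le_mul_of_nonneg_left d1 (by linarith : 0 ≤ 2 * (u + v))]
    · rw [← mul_assoc]
      apply mul_le_mul_of_nonneg_right _ A0.le
      nlinarith [mul_le_mul_of_nonneg_left d1 (by linarith : 0 ≤ 2 * (u + v))]

end Pool.Agent.K9h80.WN
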