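import Pool.Agent.K9h80.WN.Stab
import Pool.Agent.K9h80.WN.Clus
import Pool.Agent.H934R2.Expl.Pieces

/-!
# The trace is determined up to a small Hausdorff distance by monotone connection events
-/

set_option autoImplicit false

namespace Pool.Agent.K9h80.WN

open H974 H973 Finset H342P H984P H984N MeasureTheory TopologicalSpace

/-- the lattice rectangle of the mesh `δ` -/
noncomputable def dm (R : H934E.Rect) (δ : ℝ) : Dm := ⟨R.x0 δ, R.x1 δ, R.y1 δ, R.tc δ⟩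

theorem dm_edges (R : H934E.Rect) (δ : ℝ) : (dm R δ).edges = R.edges δ := (R.edges_eq δ).symm

theorem dm_clu (R : H934E.Rect) (δ : ℝ) (F : Finset Edg) : (dm R δ).clu F = R.clu δ F := rfl

theorem dm_dclu (R : H934E.Rect) (δ : ℝ) (F : Finset Edg) :
    (dm R δ).dclu F = R.dclu δ F := by
  unfold Dm.dclu H934E.Rect.dclu
  rw [dm_edges]
  rfl

theorem ok_dm (R : H934E.Rect) : ∃ δ0 : ℝ, 0 < δ0 ∧ ∀ δ : ℝ, 0 < δ → δ ≤ δ0 → (dm R δ).Ok := by
  have h1 : 0 < R.A := R.hA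
  have h2 : 0 < R.B := R.hB
  have h3 : 0 < R.H := R.hH
  have h4 : 0 < R.A + R.t := by linarith [R.ht1]
  have h5 : 0 < R.B - R.t := by linarith [R.ht2]
  refine ⟨min (min (R.A / 2) (R.B / 2)) (min (R.H / 4) (min (R.A + R.t) (R.B - R.t))),
    by positivity, ?_⟩
  intro δ hδ hle
  simp only [le_min_iff] at hle
  obtain ⟨⟨a1, a2⟩, a3, a4, a5⟩ := hle
  obtain ⟨⟨b1, b2⟩, ⟨b3, b4⟩, ⟨b5, b6⟩, b7, b8⟩ := R.small_geom2 hδ
  have c1 : 2 ≤ R.A / δ := by rw [le_div_iff₀ hδ]; linarith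
  have c2 : 2 ≤ R.B / δ := by rw [le_div_iff₀ hδ]; linarith
  have c3 : 4 ≤ R.H / δ := by rw [le_div_iff₀ hδ]; linarith
  have c4 : 1 ≤ R.A / δ + R.t / δ := by rw [← add_div, le_div_iff₀ hδ]; linarith
  have c5 : 1 ≤ R.B / δ - R.t / δ := by rw [← sub_div, le_div_iff₀ hδ]; linarith
  refine ⟨?_, ?_, ?_, ?_, ?_⟩
  · have : (R.x0 δ : ℝ) < 0 := by linarith
    exact_mod_cast this
  · have : (0:ℝ) < R.x1 δ := by linarith
    exact_mod_cast this
  · have : (0:ℝ) < R.y1 δ := by linarith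
    exact_mod_cast this
  · have : (R.x0 δ : ℝ) < R.tc δ + 1 := by linarith
    have : R.x0 δ < R.tc δ + 1 := by exact_mod_cast this
    show R.x0 δ ≤ R.tc δ
    omega
  · have : (R.tc δ : ℝ) ≤ R.x1 δ := by linarith
    exact_mod_cast this

theorem fr_dm (R : H934E.Rect) {ρ δ : ℝ} (hδ : 0 < δ) (hδ1 : δ ≤ 1)
    (hρ : R.A + R.B + R.H + 1 ≤ ρ) : Fr ρ δ (dm R δ) := by
  have h1 : 0 < R.A := R.hA
  have h2 : 0 < R.B := R.hB
  have h3 : 0 < R.H := R.hH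
  obtain ⟨⟨b1, b2⟩, ⟨b3, b4⟩, ⟨b5, b6⟩, b7, b8⟩ := R.small_geom2 hδ
  have e1 : δ * (R.A / δ) = R.A := by field_simp
  have e2 : δ * (R.B / δ) = R.B := by field_simp
  have e3 : δ * (R.H / δ) = R.H := by field_simp
  have m1 := mul_lt_mul_of_pos_left b1 hδ
  have m2 := mul_lt_mul_of_pos_left b4 hδ
  have m3 := mul_lt_mul_of_pos_left b6 hδ
  refine ⟨?_, ?_, ?_⟩
  · show -ρ ≤ δ * ((R.x0 δ : ℝ) - 1)
    nlinarith
  · show δ * ((R.x1 δ : ℝ) + 1) ≤ ρ
    nlinarith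
  · show δ * ((R.y1 δ : ℝ) + 1) ≤ ρ
    nlinarith

/-! ### dependence on the edges which are not wired -/

theorem cfg_free {R : H934E.Rect} {δ : ℝ} {F : Finset Edg} (hF : F ⊆ R.edges δ) :
    (↑(F ∩ free R δ) : Set Edg) ∪ R.wired δ = ↑F ∪ R.wired δ := by
  ext e
  simp only [Set.mem_union, Finset.mem_coe, Finset.mem_inter, mem_free]
  constructor
  · rintro (h | h)
    · exact Or.inl h.1
    · exact Or.inr h
  · rintro (h | h)
    · by_cases hw : e ∈ R.wired δ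
      · exact Or.inr hw
      · exact Or.inl ⟨h, hF h, hw⟩
    · exact Or.inr h

theorem clu_free {R : H934E.Rect} {δ : ℝ} {F : Finset Edg} (hF : F ⊆ R.edges δ) :
    R.clu δ (F ∩ free R δ) = R.clu δ F := by
  unfold H934E.Rect.clu H934E.W
  rw [cfg_free hF]

theorem dclu_free {R : H934E.Rect} {δ : ℝ} {F : Finset Edg} (hF : F ⊆ R.edges δ) :
    R.dclu δ (F ∩ free R δ) = R.dclu δ F := by
  unfold H934E.Rect.dclu
  rw [cfg_free hF]

theorem path_free {R : H934E.Rect} {δ : ℝ} {F : Finset Edg} (hF : F ⊆ R.edges δ) :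
    R.path δ (F ∩ free R δ) = R.path δ F := by
  unfold H934E.Rect.path H934E.Rect.corners
  rw [clu_free hF, dclu_free hF]

theorem trace_free {R : H934E.Rect} {δ : ℝ} (hδ : 0 < δ) {F : Finset Edg}
    (hF : F ⊆ R.edges δ) : R.trace hδ (F ∩ free R δ) = R.trace hδ F := by
  apply NonemptyCompacts.ext
  rw [H934E.Rect.coe_trace, H934E.Rect.coe_trace, path_free hF]

theorem UE_free {R : H934E.Rect} {δ : ℝ} {F : Finset Edg} (hF : F ⊆ R.edges δ) (c : Vtx)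
    (r : ℤ) : UE (dm R δ) c r F ↔ UE (dm R δ) c r (F ∩ free R δ) := by
  unfold UE
  rw [dm_clu, dm_clu, clu_free hF]

theorem VE_free {R : H934E.Rect} {δ : ℝ} {F : Finset Edg} (hF : F ⊆ R.edges δ) (c : Vtx)
    (r : ℤ) : VE (dm R δ) c r F ↔ VE (dm R δ) c r (F ∩ free R δ) := by
  unfold VE
  rw [dm_dclu, dm_dclu, dclu_free hF]

/-! ### the grid of centers -/

/-- the centers -/
noncomputable def ctr (D : Dm) (s : ℤ) (i : ℤ × ℤ) : Vtx :=
  (max D.l (min D.r (i.1 * s)), max 0 (min D.h (i.2 * s)))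

theorem ctr_in {D : Dm} (hD : D.Ok) (s : ℤ) (i : ℤ × ℤ) :
    (D.l ≤ (ctr D s i).1 ∧ (ctr D s i).1 ≤ D.r) ∧ 0 ≤ (ctr D s i).2 ∧ (ctr D s i).2 ≤ D.h := by
  obtain ⟨d1, d2, d3, d4, d5⟩ := hD
  unfold ctr
  simp only
  omega

/-- the indices -/
noncomputable def idx (K : ℤ) : Finset (ℤ × ℤ) := Finset.Icc (-K) K ×ˢ Finset.Icc (-K) K

theorem ctr_cov {D : Dm} {s K : ℤ} (hs : 1 ≤ s) {v : Vtx}
    (hv : (D.l ≤ v.1 ∧ v.1 ≤ D.r) ∧ 0 ≤ v.2 ∧ v.2 ≤ D.h) (h1 : -(K * s) ≤ v.1)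
    (h2 : v.1 ≤ K * s) (h3 : v.2 ≤ K * s) :
    ∃ i ∈ idx K, InB (ctr D s i) s v := by
  have hs0 : 0 < s := by omega
  have key : ∀ x : ℤ, -(K * s) ≤ x → x ≤ K * s → (-K ≤ x / s ∧ x / s ≤ K) ∧
      x / s * s ≤ x ∧ x < x / s * s + s := by
    intro x g1 g2
    refine ⟨⟨?_, ?_⟩, Int.ediv_mul_le x hs0.ne', ?_⟩
    · rw [Int.le_ediv_iff_mul_le hs0]
      linarith
    · have := Int.ediv_le_ediv hs0 g2
      rwa [Int.mul_ediv_cancel _ hs0.ne'] at this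
    · have := Int.lt_ediv_add_one_mul_self x hs0
      linarith
  have hK : 0 ≤ K * s := by linarith [hv.2.1]
  obtain ⟨a1, a2, a3⟩ := key v.1 h1 h2
  obtain ⟨b1, b2, b3⟩ := key v.2 (by linarith [hv.2.1]) h3
  refine ⟨(v.1 / s, v.2 / s), ?_, ?_⟩
  · unfold idx
    rw [Finset.mem_product, Finset.mem_Icc, Finset.mem_Icc]
    exact ⟨a1, b1⟩
  · unfold InB ctr
    simp only
    generalize v.1 / s * s = x at a2 a3
    generalize v.2 / s * s = y at b2 b3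
    omega

/-! ### the deterministic comparison -/

theorem near_of {R : H934E.Rect} {δ : ℝ} (hδ : 0 < δ) (hD : (dm R δ).Ok) {r K : ℤ} (hr : 4 ≤ r)
    (hK1 : -(K * (r - 3)) ≤ R.x0 δ) (hK2 : R.x1 δ ≤ K * (r - 3)) (hK3 : R.y1 δ ≤ K * (r - 3))
    {F F' : Finset Edg} (hF : F ⊆ R.edges δ) (hF' : F' ⊆ R.edges δ)
    (h : ∀ i ∈ idx K, UE (dm R δ) (ctr (dm R δ) (r - 3) i) r F →
      VE (dm R δ) (ctr (dm R δ) (r - 3) i) r F →
      UE (dm R δ) (ctr (dm R δ) (r - 3) i) r F' ∧ VE (dm R δ) (ctr (dm R δ) (r - 3) i) r F') :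
    ∀ z ∈ R.path δ F, ∃ z' ∈ R.path δ F', dist z z' ≤ 4 * r * δ := by
  intro z hz
  obtain ⟨v, f, hv, hf, ⟨n1, n2⟩, n3, n4⟩ := R.path_near2 hδ hz
  have hv' : v ∈ (dm R δ).clu F := hv
  have hf' : f ∈ (dm R δ).dclu F := by rw [dm_dclu]; exact hf
  have hFe : F ⊆ (dm R δ).edges := by rw [dm_edges]; exact hF
  have hFe' : F' ⊆ (dm R δ).edges := by rw [dm_edges]; exact hF'
  have hvR := clu_inR hD hFe hv'
  have hvR' : (R.x0 δ ≤ v.1 ∧ v.1 ≤ R.x1 δ) ∧ 0 ≤ v.2 ∧ v.2 ≤ R.y1 δ := hvR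
  obtain ⟨i, hi, hiB⟩ := ctr_cov (D := dm R δ) (s := r - 3) (K := K) (by omega) hvR
    (by omega) (by omega) (by omega)
  have hc := ctr_in hD (r - 3) i
  have hh := h i hi
  generalize ctr (dm R δ) (r - 3) i = c at hiB hc hh
  have hU : UE (dm R δ) c r F := by
    refine ⟨v, ?_, hv'⟩
    unfold InB at hiB ⊢
    omega
  have hV : VE (dm R δ) c r F := by
    refine ⟨f, ?_, hf'⟩
    have k1 : |δ * (f.1:ℝ) - δ * v.1| ≤ 3 * δ := by
      rw [abs_le] at n1 n3 ⊢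
      constructor <;> linarith
    have k2 : |δ * ((f.2:ℝ) + 1) - δ * (v.2 + 1)| ≤ 3 * δ := by
      rw [abs_le] at n2 n4 ⊢
      constructor <;> linarith
    rw [← mul_sub, abs_mul, abs_of_pos hδ, mul_comm, mul_le_mul_iff_left₀ hδ] at k1 k2
    rw [abs_le] at k1 k2
    have l1 : (v.1:ℤ) - 3 ≤ f.1 := by
      have : (v.1:ℝ) - 3 ≤ f.1 := by linarith
      exact_mod_cast this
    have l2 : f.1 ≤ v.1 + 3 := by
      have : (f.1:ℝ) ≤ v.1 + 3 := by linarith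
      exact_mod_cast this
    have l3 : (v.2:ℤ) - 3 ≤ f.2 := by
      have : (v.2:ℝ) - 3 ≤ f.2 := by linarith
      exact_mod_cast this
    have l4 : f.2 ≤ v.2 + 3 := by
      have : (f.2:ℝ) ≤ v.2 + 3 := by linarith
      exact_mod_cast this
    unfold InB at hiB
    unfold InF
    omega
  obtain ⟨⟨v', hv'B, hv'c⟩, f', hf'B, hf'c⟩ := hh hU hV
  obtain ⟨σ, hσB, hσ1, hσ2⟩ := corner_of hD hFe' (by omega) hc hv'c hv'B hf'c hf'B
  rw [dm_clu] at hσ1
  rw [dm_dclu] at hσ2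
  obtain ⟨w, q⟩ := σ
  obtain ⟨s, hs⟩ : ∃ s : Bool × Bool, H934E.cface w s = face (w, q) := by
    obtain ⟨x, y⟩ := w
    cases q
    · exact ⟨(true, true), by simp [H934E.cface]⟩
    · exact ⟨(false, true), by simp [H934E.cface]⟩
    · exact ⟨(false, false), by simp [H934E.cface]⟩
    · exact ⟨(true, false), by simp [H934E.cface]⟩
  have hmem : (w, s) ∈ R.corners δ F' := ⟨hσ1, by rw [← hs] at hσ2; exact hσ2⟩
  refine ⟨H934E.pt δ w + ⟨if s.1 then δ / 2 else -(δ / 2), 0⟩, ?_, ?_⟩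
  · unfold H934E.Rect.path
    rw [Set.mem_iUnion₂]
    exact ⟨(w, s), hmem, left_mem_segment ℝ _ _⟩
  · have ha : |if s.1 then δ / 2 else -(δ / 2)| ≤ δ := by
      split_ifs
      · rw [abs_of_pos (by positivity)]; linarith
      · rw [abs_neg, abs_of_pos (by positivity)]; linarith
    obtain ⟨t, ht⟩ : ∃ t : ℝ, t = if s.1 then δ / 2 else -(δ / 2) := ⟨_, rfl⟩
    rw [← ht] at ha ⊢
    have hσB' : (c.1 - r ≤ w.1 ∧ w.1 ≤ c.1 + r) ∧ c.2 - r ≤ w.2 ∧ w.2 ≤ c.2 + r := hσB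
    unfold InB at hiB
    have m1 : |(v.1:ℝ) - w.1| ≤ 2 * r - 3 := by
      have : |v.1 - w.1| ≤ 2 * r - 3 := by rw [abs_le]; constructor <;> omega
      exact_mod_cast this
    have m2 : |(v.2:ℝ) - w.2| ≤ 2 * r - 3 := by
      have : |v.2 - w.2| ≤ 2 * r - 3 := by rw [abs_le]; constructor <;> omega
      exact_mod_cast this
    have m3 : |δ * (v.1:ℝ) - δ * w.1| ≤ δ * (2 * r - 3) := by
      rw [← mul_sub, abs_mul, abs_of_pos hδ]
      exact mul_le_mul_of_nonneg_left m1 hδ.le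
    have m4 : |δ * ((v.2:ℝ) + 1) - δ * (w.2 + 1)| ≤ δ * (2 * r - 3) := by
      rw [← mul_sub, abs_mul, abs_of_pos hδ, add_sub_add_right_eq_sub]
      exact mul_le_mul_of_nonneg_left m2 hδ.le
    rw [dist_eq_norm]
    refine (Complex.norm_le_abs_re_add_abs_im _).trans ?_
    unfold H934E.pt
    simp only [Complex.sub_re, Complex.sub_im, Complex.add_re, Complex.add_im, add_zero]
    have o1 : |z.re - (δ * (w.1:ℝ) + t)| ≤ 2 * r * δ := by
      rw [abs_le] at n1 ha m3 ⊢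
      constructor <;> nlinarith
    have o2 : |z.im - δ * ((w.2:ℝ) + 1)| ≤ 2 * r * δ := by
      rw [abs_le] at n2 m4 ⊢
      constructor <;> nlinarith
    linarith

/-- the two traces are near for the Hausdorff metric -/
theorem trace_near {R : H934E.Rect} {δ : ℝ} (hδ : 0 < δ) {F F' : Finset Edg} {ε : ℝ}
    (hε : 0 ≤ ε) (h1 : ∀ z ∈ R.path δ F, ∃ z' ∈ R.path δ F', dist z z' ≤ ε)
    (h2 : ∀ z ∈ R.path δ F', ∃ z' ∈ R.path δ F, dist z z' ≤ ε) :
    dist (R.trace hδ F) (R.trace hδ F') ≤ ε := by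
  rw [Metric.NonemptyCompacts.dist_eq]
  exact Metric.hausdorffDist_le_of_mem_dist hε h1 h2

/-- the increasing function which detects changes of the path -/
noncomputable def Phi (D : Dm) (r K : ℤ) (F : Finset Edg) : ℝ :=
  ∑ i ∈ idx K, (ind (UE D (ctr D (r - 3) i) r F) - ind (VE D (ctr D (r - 3) i) r F))

theorem det_cmp {R : H934E.Rect} {δ : ℝ} (hδ : 0 < δ) (hD : (dm R δ).Ok) {r K : ℤ} (hr : 4 ≤ r)
    (hK1 : -(K * (r - 3)) ≤ R.x0 δ) (hK2 : R.x1 δ ≤ K * (r - 3)) (hK3 : R.y1 δ ≤ K * (r - 3))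
    {ε : ℝ} (hε : 4 * r * δ < ε) (G : Set (NonemptyCompacts ℂ)) {F₀ F F₁ F' : Finset Edg}
    (h0 : F₀ ⊆ F) (h1 : F ⊆ F₁) (h2 : F₁ ⊆ R.edges δ) (hF' : F' = F₀ ∨ F' = F₁) :
    ind (R.trace hδ F ∈ G) ≤ ind (R.trace hδ F' ∈ Metric.thickening ε G) +
      (Phi (dm R δ) r K F₁ - Phi (dm R δ) r K F₀) := by
  set D := dm R δ with hDd
  have hdiff : Phi D r K F₁ - Phi D r K F₀ =
      ∑ i ∈ idx K, ((ind (UE D (ctr D (r - 3) i) r F₁) - ind (UE D (ctr D (r - 3) i) r F₀)) +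
        (ind (VE D (ctr D (r - 3) i) r F₀) - ind (VE D (ctr D (r - 3) i) r F₁))) := by
    unfold Phi
    rw [← Finset.sum_sub_distrib]
    exact Finset.sum_congr rfl fun i _ => by ring
  have hU : ∀ i, ind (UE D (ctr D (r - 3) i) r F₀) ≤ ind (UE D (ctr D (r - 3) i) r F₁) :=
    fun i => ind_mono (UE_mono (h0.trans h1))
  have hV : ∀ i, ind (VE D (ctr D (r - 3) i) r F₁) ≤ ind (VE D (ctr D (r - 3) i) r F₀) :=
    fun i => ind_mono (VE_anti (h0.trans h1))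
  have hterm : ∀ i ∈ idx K, 0 ≤ (ind (UE D (ctr D (r - 3) i) r F₁) -
      ind (UE D (ctr D (r - 3) i) r F₀)) +
        (ind (VE D (ctr D (r - 3) i) r F₀) - ind (VE D (ctr D (r - 3) i) r F₁)) := by
    intro i _
    linarith [hU i, hV i]
  by_cases hall : ∀ i ∈ idx K, (UE D (ctr D (r - 3) i) r F₁ → UE D (ctr D (r - 3) i) r F₀) ∧
      (VE D (ctr D (r - 3) i) r F₀ → VE D (ctr D (r - 3) i) r F₁)
  · have hnn : 0 ≤ Phi D r K F₁ - Phi D r K F₀ := by
      rw [hdiff]; exact Finset.sum_nonneg hterm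
    by_cases hG : R.trace hδ F ∈ G
    · have hF'e : F' ⊆ R.edges δ := by
        rcases hF' with rfl | rfl
        · exact (h0.trans h1).trans h2
        · exact h2
      have key : ∀ i ∈ idx K, (UE D (ctr D (r - 3) i) r F ↔ UE D (ctr D (r - 3) i) r F') ∧
          (VE D (ctr D (r - 3) i) r F ↔ VE D (ctr D (r - 3) i) r F') := by
        intro i hi
        obtain ⟨a1, a2⟩ := hall i hi
        have u0 := UE_mono (D := D) (c := ctr D (r - 3) i) (r := r) h0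
        have u1 := UE_mono (D := D) (c := ctr D (r - 3) i) (r := r) h1
        have w0 := VE_anti (D := D) (c := ctr D (r - 3) i) (r := r) h0
        have w1 := VE_anti (D := D) (c := ctr D (r - 3) i) (r := r) h1
        rcases hF' with rfl | rfl
        · exact ⟨⟨fun h => a1 (u1 h), u0⟩, w0, fun h => w1 (a2 h)⟩
        · exact ⟨⟨u1, fun h => u0 (a1 h)⟩, fun h => a2 (w0 h), w1⟩
      have hr0 : (0:ℝ) ≤ 4 * r * δ := by
        have : (0:ℝ) ≤ r := by exact_mod_cast (by omega : (0:ℤ) ≤ r)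
        positivity
      have hd := trace_near (R := R) hδ hr0
        (near_of hδ hD hr hK1 hK2 hK3 (h1.trans h2) hF'e
          fun i hi a b => ⟨(key i hi).1.1 a, (key i hi).2.1 b⟩)
        (near_of hδ hD hr hK1 hK2 hK3 hF'e (h1.trans h2)
          fun i hi a b => ⟨(key i hi).1.2 a, (key i hi).2.2 b⟩)
      have hmem : R.trace hδ F' ∈ Metric.thickening ε G := by
        rw [Metric.mem_thickening_iff]
        exact ⟨_, hG, by rw [dist_comm]; exact hd.trans_lt hε⟩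
      rw [ind_of hG, ind_of hmem]
      linarith
    · rw [ind_not_of hG]
      have := ind_nonneg (R.trace hδ F' ∈ Metric.thickening ε G)
      linarith
  · push Not at hall
    obtain ⟨i, hi, hne⟩ := hall
    have h3 : 1 ≤ (ind (UE D (ctr D (r - 3) i) r F₁) - ind (UE D (ctr D (r - 3) i) r F₀)) +
        (ind (VE D (ctr D (r - 3) i) r F₀) - ind (VE D (ctr D (r - 3) i) r F₁)) := by
      by_cases hu : UE D (ctr D (r - 3) i) r F₁ → UE D (ctr D (r - 3) i) r F₀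
      · obtain ⟨b1, b2⟩ := hne hu
        rw [ind_of b1, ind_not_of b2]
        linarith [hU i]
      · push Not at hu
        rw [ind_of hu.1, ind_not_of hu.2]
        linarith [hV i]
    have h4 := Finset.single_le_sum hterm hi
    rw [← hdiff] at h4
    have h5 := ind_le_one (R.trace hδ F ∈ G)
    have h6 := ind_nonneg (R.trace hδ F' ∈ Metric.thickening ε G)
    linarith

end Pool.Agent.K9h80.WN
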