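import Pool.Agent.TH992.T.Vis

/-!
# Two clusters in one box

If the cluster of the wired arc and the dual cluster of the complementary arc both come to a box,
then the exploration path comes to the box.
-/

set_option autoImplicit false

namespace Pool.Agent.K9h80.WN

open H974 Finset H342P H984P H984N TH992.T

/-- the vertex is in the box -/
def InB (c : Vtx) (r : ℤ) (v : Vtx) : Prop := (c.1 - r ≤ v.1 ∧ v.1 ≤ c.1 + r) ∧
  c.2 - r ≤ v.2 ∧ v.2 ≤ c.2 + r

/-- the face has a corner in the box -/
def InF (c : Vtx) (r : ℤ) (f : Vtx) : Prop := (c.1 - r - 1 ≤ f.1 ∧ f.1 ≤ c.1 + r) ∧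
  c.2 - r - 1 ≤ f.2 ∧ f.2 ≤ c.2 + r

theorem walk_in_clu {D : Dm} (hD : D.Ok) (F : Finset Edg) (k : ℕ) :
    (D.walk F k).1 ∈ D.clu F := by
  induction k with
  | zero => exact clu_start hD F
  | succ k ih =>
    rw [clu_walk_succ]
    by_cases h : ae (D.walk F k) ∈ D.cfg F
    · rw [nxt_open h]
      refine Reach.trans ih (Adj.reach ⟨_, h, ?_⟩)
      obtain ⟨⟨x, y⟩, q⟩ := D.walk F k
      cases q <;> simp
    · rw [nxt_closed h]
      have e : (rt (D.walk F k)).1 = (D.walk F k).1 := by
        obtain ⟨⟨x, y⟩, q⟩ := D.walk F k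
        cases q <;> rfl
      rw [e]
      exact ih

/-- a function which does not change along the steps of an interval is constant -/
theorem const_int {g : ℤ → ZMod 2} {a b : ℤ} (h : ∀ x, a ≤ x → x < b → g x = g (x + 1)) :
    ∀ x y, a ≤ x → x ≤ b → a ≤ y → y ≤ b → g x = g y := by
  have key : ∀ (n : ℕ) (x : ℤ), a ≤ x → x + n ≤ b → g x = g (x + n) := by
    intro n
    induction n with
    | zero => intro x _ _; simp
    | succ n ih =>
      intro x h1 h2
      push_cast at h2 ⊢
      rw [ih x h1 (by omega), h (x + n) (by omega) (by omega)]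
      congr 1
      ring
  intro x y h1 h2 h3 h4
  rcases le_total x y with hh | hh
  · have := key (y - x).toNat x h1 (by omega)
    rw [show x + ((y - x).toNat : ℤ) = y by omega] at this
    exact this
  · have := key (x - y).toNat y h3 (by omega)
    rw [show y + ((x - y).toNat : ℤ) = x by omega] at this
    exact this.symm

theorem zmod_of_add {a b : ZMod 2} (h : a + b = 0) : a = b := by
  revert a b; decide

/-- **Two clusters in one box.** -/
theorem corner_of {D : Dm} (hD : D.Ok) {F : Finset Edg} (hF : F ⊆ D.edges) {c : Vtx} {r : ℤ}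
    (hr : 0 ≤ r) (hc : (D.l ≤ c.1 ∧ c.1 ≤ D.r) ∧ 0 ≤ c.2 ∧ c.2 ≤ D.h)
    {v f : Vtx} (hv : v ∈ D.clu F) (hvB : InB c r v) (hf : f ∈ D.dclu F) (hfB : InF c r f) :
    ∃ σ : St, InB c r σ.1 ∧ σ.1 ∈ D.clu F ∧ face σ ∈ D.dclu F := by
  set A : Set St := {τ | ∃ k, D.walk F k = τ} with hA
  have hinv : ∀ τ, τ ∈ A ↔ nxt (D.cfg F) τ ∈ A := by
    intro τ
    constructor
    · rintro ⟨k, rfl⟩
      exact ⟨k + 1, walk_succ D F k⟩
    · rintro ⟨k, hk⟩
      obtain ⟨P, hP, hP2⟩ := Walk_periodic hD hF
      have hinj := (nxt_bij (D.cfg F)).1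
      rcases k with _ | k
      · refine ⟨P - 1, hinj ?_⟩
        rw [← walk_succ, show P - 1 + 1 = P by omega, hP2, ← hk]
        rfl
      · exact ⟨k, hinj (by rw [← walk_succ, hk])⟩
  obtain ⟨pv, pf, p1, p2, p3⟩ := pot_of_inv (D.cfg F) A hinv
  have rv : ∀ {u v : Vtx}, Reach (D.cfg F) u v → pv u = pv v := by
    intro u v h
    induction h with
    | refl => rfl
    | tail _ hs ih =>
      obtain ⟨e, he, hc⟩ := hs
      have h1 := p2 e he
      rcases hc with ⟨h2, h3⟩ | ⟨h2, h3⟩
      · rw [ih, ← h2, ← h3, h1]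
      · rw [ih, ← h2, ← h3, h1]
  have rf : ∀ {u v : Vtx}, DReach (D.cfg F)ᶜ u v → pf u = pf v := by
    intro u v h
    induction h with
    | refl => rfl
    | tail _ hs ih =>
      obtain ⟨e, he, hc⟩ := hs
      have h1 := p3 e he
      rcases hc with ⟨h2, h3⟩ | ⟨h2, h3⟩
      · rw [ih, ← h2, ← h3, h1]
      · rw [ih, ← h2, ← h3, h1]
  have s0 : D.start ∈ A := ⟨0, rfl⟩
  have c1 : ∀ u : Vtx, u ∈ D.clu F → pv u = pv D.start.1 := by
    intro u hu
    have a1 : Reach (D.cfg F) (0, 0) D.start.1 := clu_start hD F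
    exact rv (Reach.trans (Reach.symm hu) a1)
  have c2 : ∀ g : Vtx, g ∈ D.dclu F → pf g = pf (face D.start) := by
    rintro g' ⟨g, hg, hr⟩
    have a1 : face D.start ∈ D.outer := by
      refine Or.inr (Or.inr ⟨rfl, le_rfl, hD.le_r⟩)
    have a2 := outer_conn hD hF a1
    have a3 := outer_conn hD hF hg
    refine (rf ((a2.symm.trans a3).trans (hr.mono ?_))).symm
    exact fun e he => he.2
  have hab : pv D.start.1 + pf (face D.start) = 1 := by rw [p1, b2_of s0]
  by_cases hcase : ∃ σ ∈ A, InB c r σ.1 ∧ ¬ Out D (face σ)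
  · obtain ⟨σ, ⟨k, hk⟩, hσB, hσO⟩ := hcase
    obtain ⟨k', hk', hk2⟩ := vis_of_orb hD hF hk hσO
    have h1 := walk_clu hD hF hk'
    rw [hk2] at h1
    exact ⟨σ, hσB, h1⟩
  · have hno : ∀ σ : St, InB c r σ.1 → ¬ Out D (face σ) → pv σ.1 = pf (face σ) := by
      intro σ h1 h2
      have h3 : σ ∉ A := fun h => hcase ⟨σ, h, h1, h2⟩
      have h4 := p1 σ
      rw [b2_not_of h3] at h4
      exact zmod_of_add h4
    obtain ⟨d1, d2, d3, d4, d5⟩ := hD
    -- the potential is constant on the box
    have hh : ∀ x y : ℤ, InB c r (x, y) → InB c r (x + 1, y) → (D.l ≤ x ∧ x + 1 ≤ D.r) →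
        (0 ≤ y ∧ y ≤ D.h) → pv (x, y) = pv (x + 1, y) := by
      intro x y h1 h2 h3 h4
      by_cases hy : y < D.h
      · have a1 := hno ((x, y), .ne) h1 (by unfold Out; simp only [face_ne]; omega)
        have a2 := hno ((x + 1, y), .nw) h2 (by unfold Out; simp only [face_nw]; omega)
        simp only [face_ne, face_nw, add_sub_cancel_right] at a1 a2
        rw [a1, a2]
      · have a1 := hno ((x, y), .se) h1 (by unfold Out; simp only [face_se]; omega)
        have a2 := hno ((x + 1, y), .sw) h2 (by unfold Out; simp only [face_sw]; omega)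
        simp only [face_se, face_sw, add_sub_cancel_right] at a1 a2
        rw [a1, a2]
    have hw : ∀ x y : ℤ, InB c r (x, y) → InB c r (x, y + 1) → (D.l ≤ x ∧ x ≤ D.r) →
        (0 ≤ y ∧ y + 1 ≤ D.h) → pv (x, y) = pv (x, y + 1) := by
      intro x y h1 h2 h3 h4
      by_cases hx : x < D.r
      · have a1 := hno ((x, y), .ne) h1 (by unfold Out; simp only [face_ne]; omega)
        have a2 := hno ((x, y + 1), .se) h2 (by unfold Out; simp only [face_se]; omega)
        simp only [face_ne, face_se, add_sub_cancel_right] at a1 a2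
        rw [a1, a2]
      · have a1 := hno ((x, y), .nw) h1 (by unfold Out; simp only [face_nw]; omega)
        have a2 := hno ((x, y + 1), .sw) h2 (by unfold Out; simp only [face_sw]; omega)
        simp only [face_nw, face_sw, add_sub_cancel_right] at a1 a2
        rw [a1, a2]
    have hconst : ∀ u : Vtx, InB c r u → ((D.l ≤ u.1 ∧ u.1 ≤ D.r) ∧ 0 ≤ u.2 ∧ u.2 ≤ D.h) →
        pv u = pv c := by
      rintro ⟨x, y⟩ h1 h2
      obtain ⟨c1', c2'⟩ := c
      unfold InB at h1
      simp only at h1 h2 hc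
      have e1 := const_int (g := fun x => pv (x, y)) (a := max D.l (c1' - r))
        (b := min D.r (c1' + r)) (by
          intro x' h3 h4
          refine hh x' y ?_ ?_ ?_ ?_
          · unfold InB; simp only; omega
          · unfold InB; simp only; omega
          · omega
          · omega) x c1' (by omega) (by omega) (by omega) (by omega)
      have e2 := const_int (g := fun y => pv (c1', y)) (a := max 0 (c2' - r))
        (b := min D.h (c2' + r)) (by
          intro y' h3 h4
          refine hw c1' y' ?_ ?_ ?_ ?_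
          · unfold InB; simp only; omega
          · unfold InB; simp only; omega
          · omega
          · omega) y c2' (by omega) (by omega) (by omega) (by omega)
      rw [e1, e2]
    have hvin := clu_inR ⟨d1, d2, d3, d4, d5⟩ hF hv
    have hpc : pv c = pv D.start.1 := by
      rw [← hconst v hvB hvin]
      exact c1 v hv
    -- a corner of the face in the box
    obtain ⟨σ, hσB, hσR, hσf⟩ : ∃ σ : St, InB c r σ.1 ∧
        ((D.l ≤ σ.1.1 ∧ σ.1.1 ≤ D.r) ∧ 0 ≤ σ.1.2 ∧ σ.1.2 ≤ D.h) ∧ face σ = f := by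
      have hfo := dclu_in ⟨d1, d2, d3, d4, d5⟩ hf
      obtain ⟨f1, f2⟩ := f
      obtain ⟨c1', c2'⟩ := c
      unfold InF at hfB
      unfold Dm.outer at hfo
      simp only [Set.mem_ofPred_eq] at hfo hfB hc
      by_cases hx : c1' - r ≤ f1 ∧ D.l ≤ f1
      · by_cases hy : c2' - r ≤ f2 ∧ 0 ≤ f2
        · refine ⟨((f1, f2), .ne), ?_, ?_, rfl⟩
          · unfold InB; simp only; omega
          · simp only; omega
        · refine ⟨((f1, f2 + 1), .se), ?_, ?_, ?_⟩
          · unfold InB; simp only; omega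
          · simp only; omega
          · simp
      · by_cases hy : c2' - r ≤ f2 ∧ 0 ≤ f2
        · refine ⟨((f1 + 1, f2), .nw), ?_, ?_, ?_⟩
          · unfold InB; simp only; omega
          · simp only; omega
          · simp
        · refine ⟨((f1 + 1, f2 + 1), .sw), ?_, ?_, ?_⟩
          · unfold InB; simp only; omega
          · simp only; omega
          · simp
    have e1 : pv σ.1 = pv D.start.1 := by rw [hconst σ.1 hσB hσR, hpc]
    have e2 : pf (face σ) = pf (face D.start) := by rw [hσf]; exact c2 f hf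
    have e3 : σ ∈ A := by
      have := p1 σ
      rw [e1, e2, hab] at this
      by_contra hcon
      rw [b2_not_of hcon] at this
      exact absurd this (by decide)
    obtain ⟨k, hk⟩ := e3
    refine ⟨σ, hσB, ?_, by rw [hσf]; exact hf⟩
    rw [← hk]
    exact walk_in_clu ⟨d1, d2, d3, d4, d5⟩ F k

end Pool.Agent.K9h80.WN
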