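import Pool.Agent.TH291.NW.Poly
import Pool.Agent.TH291.NW.Rct

/-!
# Near-critical stability of the connection of a set to a box
-/

set_option autoImplicit false

namespace Pool.Agent.K9h80.WN

open H974 H12S TH291.NW Finset

/-! ### rectangles -/

def Rc (a b c d : ℝ) : Set (ℝ × ℝ) := {x | (a < x.1 ∧ x.1 < b) ∧ (c < x.2 ∧ x.2 < d)}

def Cl (a b c d : ℝ) : Set (ℝ × ℝ) := {x | (a ≤ x.1 ∧ x.1 ≤ b) ∧ (c ≤ x.2 ∧ x.2 ≤ d)}

def Bd (a b c d : ℝ) : Set (ℝ × ℝ) :=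
  {x | ((x.1 = a ∨ x.1 = b) ∧ (c ≤ x.2 ∧ x.2 ≤ d)) ∨
    ((x.2 = c ∨ x.2 = d) ∧ (a ≤ x.1 ∧ x.1 ≤ b))}

theorem isOpen_Rc (a b c d : ℝ) : IsOpen (Rc a b c d) :=
  ((isOpen_lt continuous_const continuous_fst).inter
    (isOpen_lt continuous_fst continuous_const)).inter
    ((isOpen_lt continuous_const continuous_snd).inter
      (isOpen_lt continuous_snd continuous_const))

theorem isClosed_Cl (a b c d : ℝ) : IsClosed (Cl a b c d) :=
  ((isClosed_le continuous_const continuous_fst).inter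
    (isClosed_le continuous_fst continuous_const)).inter
    ((isClosed_le continuous_const continuous_snd).inter
      (isClosed_le continuous_snd continuous_const))

theorem bd_of {a b c d : ℝ} {x : ℝ × ℝ} (h : x ∈ Cl a b c d) (h' : x ∉ Rc a b c d) :
    x ∈ Bd a b c d := by
  obtain ⟨⟨k1, k2⟩, k3, k4⟩ := h
  by_cases e1 : x.1 = a ∨ x.1 = b
  · exact Or.inl ⟨e1, k3, k4⟩
  · by_cases e2 : x.2 = c ∨ x.2 = d
    · exact Or.inr ⟨e2, k1, k2⟩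
    · exfalso
      rw [not_or] at e1 e2
      exact h' ⟨⟨lt_of_le_of_ne k1 (Ne.symm e1.1), lt_of_le_of_ne k2 e1.2⟩,
        lt_of_le_of_ne k3 (Ne.symm e2.1), lt_of_le_of_ne k4 e2.2⟩

theorem Rc_sub_Cl (a b c d : ℝ) : Rc a b c d ⊆ Cl a b c d :=
  fun _ h => ⟨⟨h.1.1.le, h.1.2.le⟩, h.2.1.le, h.2.2.le⟩

theorem Bd_sub_Cl {a b c d : ℝ} (hab : a ≤ b) (hcd : c ≤ d) : Bd a b c d ⊆ Cl a b c d := by
  rintro x (⟨h | h, h1, h2⟩ | ⟨h | h, h1, h2⟩)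
  · exact ⟨⟨h.ge, h ▸ hab⟩, h1, h2⟩
  · exact ⟨⟨h ▸ hab, h.le⟩, h1, h2⟩
  · exact ⟨⟨h1, h2⟩, h.ge, h ▸ hcd⟩
  · exact ⟨⟨h1, h2⟩, h ▸ hcd, h.le⟩

/-- the domain: a rectangle with some points of its boundary, without a smaller rectangle -/
def DD (a b c d a' b' c' d' : ℝ) (P : Set (ℝ × ℝ)) : Set (ℝ × ℝ) :=
  (Rc a b c d ∪ P) ∩ (Cl a' b' c' d')ᶜ

theorem fr_DD {a b c d a' b' c' d' : ℝ} {P : Set (ℝ × ℝ)} (hab : a ≤ b) (hcd : c ≤ d)
    (hP : P ⊆ Bd a b c d) :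
    frontier (DD a b c d a' b' c' d' P) ⊆ Bd a b c d ∪ Bd a' b' c' d' := by
  have f1 : frontier (Rc a b c d ∪ P) ⊆ Bd a b c d := by
    rintro x ⟨h1, h2⟩
    apply bd_of
    · refine closure_minimal ?_ (isClosed_Cl a b c d) h1
      exact Set.union_subset (Rc_sub_Cl _ _ _ _) (hP.trans (Bd_sub_Cl hab hcd))
    · intro h3
      exact h2 (interior_maximal (Set.subset_union_left) (isOpen_Rc a b c d) h3)
  have f2 : frontier (Cl a' b' c' d')ᶜ ⊆ Bd a' b' c' d' := by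
    rw [frontier_compl]
    rintro x ⟨h1, h2⟩
    rw [(isClosed_Cl a' b' c' d').closure_eq] at h1
    exact bd_of h1 fun h3 => h2 (interior_maximal (Rc_sub_Cl _ _ _ _) (isOpen_Rc _ _ _ _) h3)
  intro x hx
  rcases frontier_inter_subset _ _ hx with h | h
  · exact Or.inl (f1 h.1)
  · exact Or.inr (f2 h.2)

theorem cov_Bd {a b c d ℓ : ℝ} (h0 : 0 ≤ ℓ) (hab : b - a ≤ ℓ) (hcd : d - c ≤ ℓ) :
    Cov (Bd a b c d) (4 * (ℓ + 1)) 1 := by
  have lv : ∀ c : ℝ, ∀ s t : ℝ, dist (((c, s) : ℝ × ℝ)) (c, t) ≤ |s - t| := by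
    intro c s t
    rw [Prod.dist_eq, max_le_iff, Real.dist_eq, Real.dist_eq]
    simp only [sub_self, abs_zero]
    exact ⟨abs_nonneg _, le_rfl⟩
  have lh : ∀ c : ℝ, ∀ s t : ℝ, dist (((s, c) : ℝ × ℝ)) (t, c) ≤ |s - t| := by
    intro c s t
    rw [Prod.dist_eq, max_le_iff, Real.dist_eq, Real.dist_eq]
    simp only [sub_self, abs_zero]
    exact ⟨le_rfl, abs_nonneg _⟩
  have s1 : ∀ x : ℝ, Cov ((fun t => ((x, t) : ℝ × ℝ)) '' Set.Icc c d) (ℓ + 1) 1 :=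
    fun x => cov_param (lv x) hcd h0
  have s2 : ∀ y : ℝ, Cov ((fun t => ((t, y) : ℝ × ℝ)) '' Set.Icc a b) (ℓ + 1) 1 :=
    fun y => cov_param (lh y) hab h0
  have hall := (((s1 a).union (s1 b)).union (s2 c)).union (s2 d)
  refine hall.mono ?_ (by ring_nf; exact le_rfl)
  rintro x (⟨h | h, h1, h2⟩ | ⟨h | h, h1, h2⟩)
  · exact Or.inl (Or.inl (Or.inl ⟨x.2, ⟨h1, h2⟩, by rw [← h]⟩))
  · exact Or.inl (Or.inl (Or.inr ⟨x.2, ⟨h1, h2⟩, by rw [← h]⟩))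
  · exact Or.inl (Or.inr ⟨x.1, ⟨h1, h2⟩, by rw [← h]⟩)
  · exact Or.inr ⟨x.1, ⟨h1, h2⟩, by rw [← h]⟩

theorem stab_gen (ρ : ℝ) (hρ : 0 ≤ ρ) : ∃ C : ℝ, 0 < C ∧ ∀ (a b c d a' b' c' d' : ℝ)
    (P : Set (ℝ × ℝ)), a ≤ b → c ≤ d → P ⊆ Bd a b c d → -ρ ≤ a → b ≤ ρ → -ρ ≤ c → d ≤ ρ →
    b' - a' ≤ 2 * ρ → d' - c' ≤ 2 * ρ →
    ∀ δ : ℝ, 0 < δ → δ ≤ 1 → ∀ N : ℕ, ρ + δ ≤ δ * N → ∀ I J : Set Vtx,
      (∀ v ∈ I ∪ J, ∃ x ∈ Bd a b c d ∪ Bd a' b' c' d', dist x (pt δ v) ≤ 1 * δ) →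
      ∀ q : ℝ, 0 ≤ q → q ≤ 1 →
      |Pr (fun _ => q) (SE (DD a b c d a' b' c' d' P) δ N) (fun F => Cn I J ↑F) -
        Pr (fun _ => 1/2) (SE (DD a b c d a' b' c' d' P) δ N) (fun F => Cn I J ↑F)| ≤
        C * |q - 1/2| * δ ^ (-(3/4 : ℝ)) := by
  obtain ⟨C, hC, hst⟩ := dom_stab stU ρ (4 * (2 * ρ + 1) + 4 * (2 * ρ + 1)) 1 1 (by positivity)
    (by norm_num) (by norm_num) (by norm_num)
  refine ⟨C, hC, ?_⟩
  intro a b c d a' b' c' d' P hab hcd hP ha hb hc hd hab' hcd' δ hδ hδ1 N hN I J hIJ q h0 h1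
  refine hst _ _ (fr_DD hab hcd hP) ?_ ?_ δ hδ hδ1 N hN I J hIJ q h0 h1
  · rintro x ⟨hx, -⟩
    have hx2 : x ∈ Cl a b c d := by
      rcases hx with hx | hx
      · exact Rc_sub_Cl _ _ _ _ hx
      · exact Bd_sub_Cl hab hcd (hP hx)
    obtain ⟨⟨k1, k2⟩, k3, k4⟩ := hx2
    rw [abs_le, abs_le]
    exact ⟨⟨by linarith, by linarith⟩, by linarith, by linarith⟩
  · exact (cov_Bd (by positivity) (by linarith) (by linarith)).union
      (cov_Bd (by positivity) hab' hcd')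

/-! ### lattice boxes -/

/-- the vertex is in the box -/
def InQ (p1 p2 q1 q2 : ℤ) (v : Vtx) : Prop := (p1 ≤ v.1 ∧ v.1 ≤ p2) ∧ q1 ≤ v.2 ∧ v.2 ≤ q2

/-- the outer layer of the box -/
def LyQ (p1 p2 q1 q2 : ℤ) (v : Vtx) : Prop := InQ p1 p2 q1 q2 v ∧
  (v.1 = p1 ∨ v.1 = p2 ∨ v.2 = q1 ∨ v.2 = q2)

theorem adj_ly {p1 p2 q1 q2 : ℤ} {F : Set Edg} {v w : Vtx} (h : Adj F v w)
    (hv : ¬ InQ p1 p2 q1 q2 v) (hw : InQ p1 p2 q1 q2 w) : LyQ p1 p2 q1 q2 w := by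
  refine ⟨hw, ?_⟩
  obtain ⟨⟨x, y, b⟩, -, h⟩ := h
  unfold InQ at hv hw
  cases b
  · simp only [src_mk, tgt_false] at h
    rcases h with ⟨h1, h2⟩ | ⟨h1, h2⟩
    · rw [← h1] at hv; rw [← h2] at hw ⊢; simp only at hv hw ⊢; omega
    · rw [← h1] at hw ⊢; rw [← h2] at hv; simp only at hv hw ⊢; omega
  · simp only [src_mk, tgt_true] at h
    rcases h with ⟨h1, h2⟩ | ⟨h1, h2⟩
    · rw [← h1] at hv; rw [← h2] at hw ⊢; simp only at hv hw ⊢; omega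
    · rw [← h1] at hw ⊢; rw [← h2] at hv; simp only at hv hw ⊢; omega

theorem hit_iff {p1 p2 q1 q2 : ℤ} {S T F : Finset Edg}
    (hS : ∀ e ∈ S, (¬ InQ p1 p2 q1 q2 (src e) ∨ ¬ InQ p1 p2 q1 q2 (tgt e)) → e ∈ T)
    (hF : F ⊆ S) {I : Set Vtx} (hI : ∀ u ∈ I, ¬ InQ p1 p2 q1 q2 u) :
    Cn I {v | InQ p1 p2 q1 q2 v} (↑F : Set Edg) ↔
      Cn I {v | LyQ p1 p2 q1 q2 v} (↑(F ∩ T) : Set Edg) := by
  constructor
  · rintro ⟨u, hu, v, hv, h⟩
    have key : ∀ w, Reach (↑F : Set Edg) u w →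
        (¬ InQ p1 p2 q1 q2 w ∧ Reach (↑(F ∩ T) : Set Edg) u w) ∨
          ∃ w', LyQ p1 p2 q1 q2 w' ∧ Reach (↑(F ∩ T) : Set Edg) u w' := by
      intro w hw
      induction hw with
      | refl => exact Or.inl ⟨hI u hu, Reach.refl _ _⟩
      | @tail w w' _ hs ih =>
        rcases ih with ⟨i1, i2⟩ | ih
        · have hs' : Adj (↑(F ∩ T) : Set Edg) w w' := by
            obtain ⟨e, he, hc⟩ := hs
            refine ⟨e, ?_, hc⟩
            rw [Finset.mem_coe, Finset.mem_inter]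
            refine ⟨he, hS e (hF he) ?_⟩
            rcases hc with ⟨h2, h3⟩ | ⟨h2, h3⟩
            · left; rw [h2]; exact i1
            · right; rw [h3]; exact i1
          by_cases hw' : InQ p1 p2 q1 q2 w'
          · exact Or.inr ⟨w', adj_ly hs i1 hw', i2.trans hs'.reach⟩
          · exact Or.inl ⟨hw', i2.trans hs'.reach⟩
        · exact Or.inr ih
    rcases key v h with ⟨h1, -⟩ | ⟨w', h1, h2⟩
    · exact absurd hv h1
    · exact ⟨u, hu, w', h1, h2⟩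
  · rintro ⟨u, hu, v, hv, h⟩
    refine ⟨u, hu, v, hv.1, h.mono ?_⟩
    rw [Finset.coe_inter]
    exact Set.inter_subset_left

theorem pr_hit {p1 p2 q1 q2 : ℤ} {S T : Finset Edg} (hT : T ⊆ S)
    (hS : ∀ e ∈ S, (¬ InQ p1 p2 q1 q2 (src e) ∨ ¬ InQ p1 p2 q1 q2 (tgt e)) → e ∈ T)
    {I : Set Vtx} (hI : ∀ u ∈ I, ¬ InQ p1 p2 q1 q2 u) (q : ℝ) :
    Pr (fun _ => q) S (fun F => Cn I {v | InQ p1 p2 q1 q2 v} (↑F : Set Edg)) =
      Pr (fun _ => q) T (fun F => Cn I {v | LyQ p1 p2 q1 q2 v} (↑F : Set Edg)) := by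
  have h1 : Pr (fun _ => q) S (fun F => Cn I {v | InQ p1 p2 q1 q2 v} (↑F : Set Edg)) =
      Pr (fun _ => q) T (fun F => Cn I {v | InQ p1 p2 q1 q2 v} (↑F : Set Edg)) := by
    apply Pr_local hT
    intro F hF
    rw [hit_iff hS hF hI, hit_iff hS (Finset.inter_subset_left.trans hF) hI,
      Finset.inter_assoc, Finset.inter_self]
  rw [h1]
  apply Pr_congr
  intro F hF
  rw [hit_iff hS (hF.trans hT) hI, Finset.inter_eq_left.mpr hF]

/-- an edge with an end outside the box does not meet the inner box -/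
theorem seg_out {δ : ℝ} (hδ : 0 < δ) {p1 p2 q1 q2 : ℤ} {e : Edg}
    (h : ¬ InQ p1 p2 q1 q2 (src e) ∨ ¬ InQ p1 p2 q1 q2 (tgt e)) :
    segment ℝ (pt δ (src e)) (pt δ (tgt e)) ⊆
      (Cl (δ * (p1 + 1/2)) (δ * (p2 - 1/2)) (δ * (q1 + 1/2)) (δ * (q2 - 1/2)))ᶜ := by
  rintro z hz ⟨⟨k1, k2⟩, k3, k4⟩
  rw [segment_eq_image] at hz
  obtain ⟨θ, ⟨t0, t1⟩, rfl⟩ := hz
  obtain ⟨x, y, b⟩ := e
  unfold InQ at h
  cases b
  · simp only [src_mk, tgt_false] at h k1 k2 k3 k4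
    simp only [pt, Prod.smul_mk, Prod.mk_add_mk, smul_eq_mul] at k1 k2 k3 k4
    push_cast at k1 k2 k3 k4
    have e1 : (1 - θ) * (δ * (x:ℝ)) + θ * (δ * x) = δ * x := by ring
    have e2 : (1 - θ) * (δ * (y:ℝ)) + θ * (δ * (y + 1)) = δ * (y + θ) := by ring
    rw [e1] at k1 k2
    rw [e2] at k3 k4
    have l1 := le_of_mul_le_mul_left k1 hδ
    have l2 := le_of_mul_le_mul_left k2 hδ
    have l3 := le_of_mul_le_mul_left k3 hδ
    have l4 := le_of_mul_le_mul_left k4 hδ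
    have m1 : p1 < x := by have : (p1:ℝ) < x := by linarith
                           exact_mod_cast this
    have m2 : x < p2 := by have : (x:ℝ) < p2 := by linarith
                           exact_mod_cast this
    have m3 : q1 < y + 1 := by
      have : (q1:ℝ) < (y:ℝ) + 1 := by linarith
      exact_mod_cast this
    have m4 : y < q2 := by have : (y:ℝ) < q2 := by linarith
                           exact_mod_cast this
    omega
  · simp only [src_mk, tgt_true] at h k1 k2 k3 k4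
    simp only [pt, Prod.smul_mk, Prod.mk_add_mk, smul_eq_mul] at k1 k2 k3 k4
    push_cast at k1 k2 k3 k4
    have e1 : (1 - θ) * (δ * (y:ℝ)) + θ * (δ * y) = δ * y := by ring
    have e2 : (1 - θ) * (δ * (x:ℝ)) + θ * (δ * (x + 1)) = δ * (x + θ) := by ring
    rw [e2] at k1 k2
    rw [e1] at k3 k4
    have l1 := le_of_mul_le_mul_left k1 hδ
    have l2 := le_of_mul_le_mul_left k2 hδ
    have l3 := le_of_mul_le_mul_left k3 hδ
    have l4 := le_of_mul_le_mul_left k4 hδ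
    have m1 : p1 < x + 1 := by
      have : (p1:ℝ) < (x:ℝ) + 1 := by linarith
      exact_mod_cast this
    have m2 : x < p2 := by have : (x:ℝ) < p2 := by linarith
                           exact_mod_cast this
    have m3 : q1 < y := by have : (q1:ℝ) < y := by linarith
                           exact_mod_cast this
    have m4 : y < q2 := by have : (y:ℝ) < q2 := by linarith
                           exact_mod_cast this
    omega

/-- the vertices of the layer are near the boundary of the inner box -/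
theorem ly_near {δ : ℝ} (hδ : 0 < δ) {p1 p2 q1 q2 : ℤ} (hp : p1 + 1 ≤ p2) (hq : q1 + 1 ≤ q2)
    {v : Vtx} (h : LyQ p1 p2 q1 q2 v) :
    ∃ x ∈ Bd (δ * (p1 + 1/2)) (δ * (p2 - 1/2)) (δ * (q1 + 1/2)) (δ * (q2 - 1/2)),
      dist x (pt δ v) ≤ 1 * δ := by
  obtain ⟨⟨⟨h1, h2⟩, h3, h4⟩, h5⟩ := h
  obtain ⟨v1, v2⟩ := v
  simp only at h1 h2 h3 h4 h5
  have r1 : (p1:ℝ) ≤ v1 := by exact_mod_cast h1
  have r2 : (v1:ℝ) ≤ p2 := by exact_mod_cast h2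
  have r3 : (q1:ℝ) ≤ v2 := by exact_mod_cast h3
  have r4 : (v2:ℝ) ≤ q2 := by exact_mod_cast h4
  have rp : (p1:ℝ) + 1 ≤ p2 := by exact_mod_cast hp
  have rq : (q1:ℝ) + 1 ≤ q2 := by exact_mod_cast hq
  -- clipped coordinates
  obtain ⟨x1, hx1⟩ : ∃ x, x = max ((p1:ℝ) + 1/2) (min v1 ((p2:ℝ) - 1/2)) := ⟨_, rfl⟩
  obtain ⟨x2, hx2⟩ : ∃ x, x = max ((q1:ℝ) + 1/2) (min v2 ((q2:ℝ) - 1/2)) := ⟨_, rfl⟩
  have a1 : (p1:ℝ) + 1/2 ≤ x1 := hx1 ▸ le_max_left _ _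
  have a2 : x1 ≤ (p2:ℝ) - 1/2 := by
    rw [hx1]; exact max_le (by linarith) (min_le_right _ _)
  have b1 : (q1:ℝ) + 1/2 ≤ x2 := hx2 ▸ le_max_left _ _
  have b2 : x2 ≤ (q2:ℝ) - 1/2 := by
    rw [hx2]; exact max_le (by linarith) (min_le_right _ _)
  have c1 : |x1 - v1| ≤ 1 := by
    rw [hx1, abs_le]
    rcases le_total ((p1:ℝ) + 1/2) (min v1 ((p2:ℝ) - 1/2)) with hh | hh
    · rw [max_eq_right hh]
      rcases le_total (v1:ℝ) ((p2:ℝ) - 1/2) with h6 | h6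
      · rw [min_eq_left h6]; constructor <;> linarith
      · rw [min_eq_right h6]; constructor <;> linarith
    · rw [max_eq_left hh]
      have : (v1:ℝ) ≤ (p1:ℝ) + 1/2 ∨ (p2:ℝ) - 1/2 ≤ (p1:ℝ) + 1/2 := by
        rcases le_total (v1:ℝ) ((p2:ℝ) - 1/2) with h6 | h6
        · rw [min_eq_left h6] at hh; exact Or.inl hh
        · rw [min_eq_right h6] at hh; exact Or.inr hh
      rcases this with h6 | h6 <;> constructor <;> linarith
  have c2 : |x2 - v2| ≤ 1 := by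
    rw [hx2, abs_le]
    rcases le_total ((q1:ℝ) + 1/2) (min v2 ((q2:ℝ) - 1/2)) with hh | hh
    · rw [max_eq_right hh]
      rcases le_total (v2:ℝ) ((q2:ℝ) - 1/2) with h6 | h6
      · rw [min_eq_left h6]; constructor <;> linarith
      · rw [min_eq_right h6]; constructor <;> linarith
    · rw [max_eq_left hh]
      have : (v2:ℝ) ≤ (q1:ℝ) + 1/2 ∨ (q2:ℝ) - 1/2 ≤ (q1:ℝ) + 1/2 := by
        rcases le_total (v2:ℝ) ((q2:ℝ) - 1/2) with h6 | h6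
        · rw [min_eq_left h6] at hh; exact Or.inl hh
        · rw [min_eq_right h6] at hh; exact Or.inr hh
      rcases this with h6 | h6 <;> constructor <;> linarith
  have dd : ∀ y1 y2 : ℝ, |y1 - v1| ≤ 1 → |y2 - v2| ≤ 1 →
      dist ((δ * y1, δ * y2) : ℝ × ℝ) (pt δ (v1, v2)) ≤ 1 * δ := by
    intro y1 y2 g1 g2
    rw [dist_pt]
    simp only
    rw [← mul_sub, ← mul_sub, abs_mul, abs_mul, abs_of_pos hδ]
    constructor <;> nlinarith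
  have hle : ∀ s t : ℝ, s ≤ t → δ * s ≤ δ * t := fun s t g => mul_le_mul_of_nonneg_left g hδ.le
  rcases h5 with h5 | h5 | h5 | h5
  · refine ⟨(δ * (p1 + 1/2), δ * x2), Or.inl ⟨Or.inl rfl, hle _ _ b1, hle _ _ b2⟩, dd _ _ ?_ c2⟩
    rw [h5, abs_le]; constructor <;> linarith
  · refine ⟨(δ * (p2 - 1/2), δ * x2), Or.inl ⟨Or.inr rfl, hle _ _ b1, hle _ _ b2⟩, dd _ _ ?_ c2⟩
    rw [h5, abs_le]; constructor <;> linarith
  · refine ⟨(δ * x1, δ * (q1 + 1/2)), Or.inr ⟨Or.inl rfl, hle _ _ a1, hle _ _ a2⟩, dd _ _ c1 ?_⟩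
    rw [h5, abs_le]; constructor <;> linarith
  · refine ⟨(δ * x1, δ * (q2 - 1/2)), Or.inr ⟨Or.inr rfl, hle _ _ a1, hle _ _ a2⟩, dd _ _ c1 ?_⟩
    rw [h5, abs_le]; constructor <;> linarith

end Pool.Agent.K9h80.WN
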