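import Pool.Agent.K9h80.WN.Det
import Pool.Agent.K9h80.WN.Plane

/-!
# The two clusters come to a box: connection events of the lattice and of its dual
-/

set_option autoImplicit false

namespace Pool.Agent.K9h80.WN

open H974 H12S Finset H342P H984P H984N

/-- the cluster of the wired arc comes to the box -/
def UE (D : Dm) (c : Vtx) (r : ℤ) (F : Finset Edg) : Prop := ∃ v, InB c r v ∧ v ∈ D.clu F

/-- the dual cluster of the free arc comes to the box -/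
def VE (D : Dm) (c : Vtx) (r : ℤ) (F : Finset Edg) : Prop := ∃ f, InF c r f ∧ f ∈ D.dclu F

/-- the vertices of the wired arc -/
def arcV (D : Dm) : Set Vtx := {v | (v.2 = 0 ∧ D.l ≤ v.1 ∧ v.1 ≤ 0) ∨
  (v.1 = D.l ∧ 0 ≤ v.2 ∧ v.2 ≤ D.h) ∨ (v.2 = D.h ∧ D.l ≤ v.1 ∧ v.1 ≤ D.t)}

theorem arc_clu {D : Dm} (hD : D.Ok) (F : Finset Edg) {u : Vtx} (hu : u ∈ arcV D) :
    u ∈ D.clu F := by
  obtain ⟨h1, h2, h3, h4, h5⟩ := hD
  have e1 := clu_bottom (D := D) F (-D.l).toNat (by omega)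
  have f1 : -(((-D.l).toNat : ℕ) : ℤ) = D.l := by omega
  rw [f1] at e1
  obtain ⟨x, y⟩ := u
  unfold arcV at hu
  simp only [Set.mem_ofPred_eq] at hu
  rcases hu with ⟨rfl, a1, a2⟩ | ⟨rfl, a1, a2⟩ | ⟨rfl, a1, a2⟩
  · have e := clu_bottom (D := D) F (-x).toNat (by omega)
    rwa [show -(((-x).toNat : ℕ) : ℤ) = x by omega] at e
  · have e := clu_left (D := D) F y.toNat (by omega)
    rw [show ((y.toNat : ℕ) : ℤ) = y by omega] at e
    exact e1.trans e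
  · have e2 := clu_left (D := D) F D.h.toNat (by omega)
    rw [show ((D.h.toNat : ℕ) : ℤ) = D.h by omega] at e2
    have e := clu_top (D := D) F (x - D.l).toNat (by omega)
    rw [show D.l + (((x - D.l).toNat : ℕ) : ℤ) = x by omega] at e
    exact (e1.trans e2).trans e

theorem wir_arc {D : Dm} (hD : D.Ok) {e : Edg} (he : e ∈ D.wir) :
    src e ∈ arcV D ∧ tgt e ∈ arcV D := by
  obtain ⟨h1, h2, h3, h4, h5⟩ := hD
  obtain ⟨x, y, b⟩ := e
  unfold Dm.wir at he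
  unfold arcV
  simp only [Set.mem_ofPred_eq] at he
  cases b
  · simp only [src_mk, tgt_false, Set.mem_ofPred_eq]
    simp at he
    omega
  · simp only [src_mk, tgt_true, Set.mem_ofPred_eq]
    simp at he
    omega

theorem clu_iff {D : Dm} (hD : D.Ok) (F : Finset Edg) (v : Vtx) :
    v ∈ D.clu F ↔ ∃ u ∈ arcV D, Reach (↑F : Set Edg) u v := by
  constructor
  · intro hv
    have h0 : ((0, 0) : Vtx) ∈ arcV D := Or.inl ⟨rfl, hD.l_neg.le, le_rfl⟩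
    have key : ∀ w, Reach (D.cfg F) (0, 0) w → ∃ u ∈ arcV D, Reach (↑F : Set Edg) u w := by
      intro w hw
      induction hw with
      | refl => exact ⟨_, h0, Reach.refl _ _⟩
      | @tail w w' _ hs ih =>
        obtain ⟨u, hu, h⟩ := ih
        obtain ⟨e, he, hc⟩ := hs
        rcases he with he | he
        · exact ⟨u, hu, h.trans (Adj.reach ⟨e, he, hc⟩)⟩
        · have h1 := wir_arc hD he
          rcases hc with ⟨h2, h3⟩ | ⟨h2, h3⟩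
          · exact ⟨w', h3 ▸ h1.2, Reach.refl _ _⟩
          · exact ⟨w', h2 ▸ h1.1, Reach.refl _ _⟩
    exact key v hv
  · rintro ⟨u, hu, h⟩
    exact Reach.trans (arc_clu hD F hu) (h.mono Set.subset_union_left)

theorem UE_iff {D : Dm} (hD : D.Ok) {c : Vtx} {r : ℤ} (F : Finset Edg) :
    UE D c r F ↔ Cn (arcV D) {v | InQ (c.1 - r) (c.1 + r) (c.2 - r) (c.2 + r) v}
      (↑F : Set Edg) := by
  constructor
  · rintro ⟨v, hv, h⟩
    obtain ⟨u, hu, h'⟩ := (clu_iff hD F v).1 h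
    exact ⟨u, hu, v, hv, h'⟩
  · rintro ⟨u, hu, v, hv, h⟩
    exact ⟨v, hv, (clu_iff hD F v).2 ⟨u, hu, h⟩⟩

theorem UE_mono {D : Dm} {c : Vtx} {r : ℤ} {F G : Finset Edg} (h : F ⊆ G) (hF : UE D c r F) :
    UE D c r G := by
  obtain ⟨v, hv, h'⟩ := hF
  refine ⟨v, hv, ?_⟩
  have h1 : Reach (D.cfg F) (0, 0) v := h'
  exact h1.mono (Set.union_subset_union_left _ (by exact_mod_cast h))

theorem VE_anti {D : Dm} {c : Vtx} {r : ℤ} {F G : Finset Edg} (h : F ⊆ G) (hG : VE D c r G) :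
    VE D c r F := by
  obtain ⟨f, hf, g, hg, h'⟩ := hG
  refine ⟨f, hf, g, hg, h'.mono ?_⟩
  rintro e ⟨he, he'⟩
  refine ⟨he, fun h2 => he' ?_⟩
  rcases h2 with h2 | h2
  · exact Or.inl (by exact_mod_cast h (by exact_mod_cast h2))
  · exact Or.inr h2

/-! ### the dual event -/

/-- `f` is a face outside the rectangle at the wired arc, `f₀` is the face inside next to it -/
def Nb (D : Dm) (f f₀ : Vtx) : Prop :=
  (f.1 = D.l - 1 ∧ 0 ≤ f.2 ∧ f.2 < D.h ∧ f₀.1 = f.1 + 1 ∧ f₀.2 = f.2) ∨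
  (f.2 = D.h ∧ D.l ≤ f.1 ∧ f.1 < D.t ∧ f₀.1 = f.1 ∧ f₀.2 = f.2 - 1) ∨
  (f.2 = -1 ∧ D.l ≤ f.1 ∧ f.1 < 0 ∧ f₀.1 = f.1 ∧ f₀.2 = f.2 + 1)

theorem dstep_in {D : Dm} (hD : D.Ok) {e : Edg} (he : e ∈ D.edges) (hw : e ∉ D.wir) {f f' : Vtx}
    (hc : (dsrc e = f ∧ dtgt e = f') ∨ (dsrc e = f' ∧ dtgt e = f)) : ∀ f₀, ¬ Nb D f f₀ := by
  obtain ⟨h1, h2, h3, h4, h5⟩ := hD
  obtain ⟨x, y, b⟩ := e
  obtain ⟨a1, a2⟩ := f
  obtain ⟨a1', a2'⟩ := f'
  unfold Dm.edges at he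
  unfold Dm.wir at hw
  unfold Nb
  simp only [Set.mem_ofPred_eq, not_or, not_and] at hw
  cases b
  · rw [mem_RE_false] at he
    simp only [dsrc_false, dtgt_mk, Prod.mk.injEq] at hc
    simp at hw
    rintro ⟨b1, b2⟩
    simp only
    omega
  · rw [mem_RE_true] at he
    simp only [dsrc_true, dtgt_mk, Prod.mk.injEq] at hc
    simp at hw
    rintro ⟨b1, b2⟩
    simp only
    omega

theorem dstep_wir {D : Dm} (hD : D.Ok) {e : Edg} (he : e ∈ D.wir) {f f' : Vtx}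
    (hc : (dsrc e = f ∧ dtgt e = f') ∨ (dsrc e = f' ∧ dtgt e = f)) :
    (∀ f₀, Nb D f f₀ → f' = f₀) ∧ ((f ∈ D.outer ∨
      ((D.l ≤ f.1 ∧ f.1 < D.r) ∧ 0 ≤ f.2 ∧ f.2 < D.h)) → Nb D f' f) := by
  obtain ⟨h1, h2, h3, h4, h5⟩ := hD
  obtain ⟨x, y, b⟩ := e
  obtain ⟨a1, a2⟩ := f
  obtain ⟨a1', a2'⟩ := f'
  unfold Dm.wir at he
  unfold Nb Dm.outer
  simp only [Set.mem_ofPred_eq] at he ⊢
  cases b
  · simp only [dsrc_false, dtgt_mk, Prod.mk.injEq] at hc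
    simp at he
    constructor
    · rintro ⟨b1, b2⟩
      simp only [Prod.mk.injEq]
      omega
    · omega
  · simp only [dsrc_true, dtgt_mk, Prod.mk.injEq] at hc
    simp at he
    constructor
    · rintro ⟨b1, b2⟩
      simp only [Prod.mk.injEq]
      omega
    · omega

theorem dclu_or {D : Dm} (hD : D.Ok) {F : Finset Edg} {g f : Vtx} (hg : g ∈ D.outer)
    (h : DReach (↑D.edges \ ↑F : Set Edg) g f) :
    f ∈ D.dclu F ∨ ∃ f₀ ∈ D.dclu F, Nb D f f₀ := by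
  induction h with
  | refl => exact Or.inl ⟨g, hg, DReach.refl _ _⟩
  | @tail f f' _ hs ih =>
    obtain ⟨e, ⟨he, heF⟩, hc⟩ := hs
    by_cases hw : e ∈ D.wir
    · obtain ⟨h1, h2⟩ := dstep_wir hD hw hc
      rcases ih with ih | ⟨f₀, hf₀, hn⟩
      · exact Or.inr ⟨f, ih, h2 (dclu_in hD ih)⟩
      · rw [h1 f₀ hn]
        exact Or.inl hf₀
    · rcases ih with ⟨g', hg', hr⟩ | ⟨f₀, hf₀, hn⟩
      · refine Or.inl ⟨g', hg', hr.trans (DAdj.reach ⟨e, ⟨he, ?_⟩, hc⟩)⟩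
        rintro (h3 | h3)
        · exact heF h3
        · exact hw h3
      · exact absurd hn (dstep_in hD he hw hc f₀)

theorem VE_iff {D : Dm} (hD : D.Ok) {c : Vtx} {r : ℤ}
    (hc : (D.l ≤ c.1 ∧ c.1 ≤ D.r) ∧ 0 ≤ c.2 ∧ c.2 ≤ D.h) (F : Finset Edg) :
    VE D c r F ↔ Cn D.outer {v | InQ (c.1 - r - 1) (c.1 + r) (c.2 - r - 1) (c.2 + r) v}
      (↑(dmp (D.edges \ F)) : Set Edg) := by
  have e : (↑(dmp (D.edges \ F)) : Set Edg) = dl '' (↑D.edges \ ↑F : Set Edg) := by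
    rw [coe_dmp, Finset.coe_sdiff]
  rw [e]
  constructor
  · rintro ⟨f, hf, g, hg, h⟩
    refine ⟨g, hg, f, hf, reach_dl.2 (h.mono ?_)⟩
    rintro e ⟨he, he'⟩
    exact ⟨he, fun h2 => he' (Or.inl h2)⟩
  · rintro ⟨g, hg, f, hf, h⟩
    rcases dclu_or hD hg (reach_dl.1 h) with h1 | ⟨f₀, h1, h2⟩
    · exact ⟨f, hf, h1⟩
    · refine ⟨f₀, ?_, h1⟩
      obtain ⟨d1, d2, d3, d4, d5⟩ := hD
      have hf' : InQ (c.1 - r - 1) (c.1 + r) (c.2 - r - 1) (c.2 + r) f := hf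
      unfold InQ at hf'
      unfold Nb at h2
      unfold InF
      omega

end Pool.Agent.K9h80.WN
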