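import Pool.Agent.K9h80.WN.Prob

/-!
# The laws
-/

set_option autoImplicit false

namespace Pool.Agent.K9h80.WN

open H974 H973 Finset MeasureTheory TopologicalSpace Filter Topology

/-- The partition function. -/
noncomputable def Zfk (R : H934E.Rect) (δ p q : ℝ) : ℝ := ∑ F ∈ (free R δ).powerset, wt R δ p q F

theorem wt_nonneg (R : H934E.Rect) (δ : ℝ) {p q : ℝ} (hp0 : 0 < p) (hp1 : p < 1) (hq : 0 < q)
    (F : Finset Edg) : 0 < wt R δ p q F := by
  have : 0 < 1 - p := by linarith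
  unfold wt
  positivity

theorem Zfk_pos (R : H934E.Rect) (δ : ℝ) {p q : ℝ} (hp0 : 0 < p) (hp1 : p < 1) (hq : 0 < q) :
    0 < Zfk R δ p q :=
  Finset.sum_pos (fun F _ => wt_nonneg R δ hp0 hp1 hq F) ⟨∅, empty_mem_powerset _⟩

/-- The law of the trace for the random cluster measure with parameters `p`, `q`. -/
noncomputable def fkM (R : H934E.Rect) {δ : ℝ} (hδ : 0 < δ) (p q : ℝ) :
    Measure (NonemptyCompacts ℂ) :=
  ∑ F ∈ (free R δ).powerset, ENNReal.ofReal (wt R δ p q F / Zfk R δ p q) •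
    Measure.dirac (R.trace hδ F)

theorem fkM_apply (R : H934E.Rect) {δ : ℝ} (hδ : 0 < δ) {p q : ℝ} (hp0 : 0 < p) (hp1 : p < 1)
    (hq : 0 < q) {G : Set (NonemptyCompacts ℂ)} (hG : MeasurableSet G) :
    fkM R hδ p q G = ENNReal.ofReal
      ((∑ F ∈ (free R δ).powerset, wt R δ p q F * ind (R.trace hδ F ∈ G)) / Zfk R δ p q) := by
  classical
  have hZ := Zfk_pos R δ hp0 hp1 hq
  unfold fkM
  rw [Measure.finsetSum_apply, Finset.sum_div, ENNReal.ofReal_sum_of_nonneg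
    (fun F _ => by
      have := wt_nonneg R δ hp0 hp1 hq F
      have := ind_nonneg (R.trace hδ F ∈ G)
      positivity)]
  apply Finset.sum_congr rfl
  intro F _
  rw [Measure.smul_apply, Measure.dirac_apply' _ hG, smul_eq_mul]
  by_cases h : R.trace hδ F ∈ G
  · rw [ind_of h, Set.indicator_of_mem h]; simp
  · rw [ind_not_of h, Set.indicator_of_notMem h]; simp

theorem fkM_univ (R : H934E.Rect) {δ : ℝ} (hδ : 0 < δ) {p q : ℝ} (hp0 : 0 < p) (hp1 : p < 1)
    (hq : 0 < q) : fkM R hδ p q Set.univ = 1 := by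
  have hZ := Zfk_pos R δ hp0 hp1 hq
  rw [fkM_apply R hδ hp0 hp1 hq MeasurableSet.univ]
  have : ∑ F ∈ (free R δ).powerset, wt R δ p q F *
      ind (R.trace hδ F ∈ (Set.univ : Set (NonemptyCompacts ℂ))) = Zfk R δ p q :=
    Finset.sum_congr rfl fun F _ => by rw [ind_of (Set.mem_univ _), mul_one]
  rw [this, div_self hZ.ne', ENNReal.ofReal_one]

/-- The law of the trace of the interface of the random cluster model. -/
noncomputable def fk (R : H934E.Rect) {δ : ℝ} (hδ : 0 < δ) {p q : ℝ} (hp0 : 0 < p) (hp1 : p < 1)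
    (hq : 0 < q) : ProbabilityMeasure (NonemptyCompacts ℂ) :=
  ⟨fkM R hδ p q, ⟨fkM_univ R hδ hp0 hp1 hq⟩⟩

theorem fk_real (R : H934E.Rect) {δ : ℝ} (hδ : 0 < δ) {p q : ℝ} (hp0 : 0 < p) (hp1 : p < 1)
    (hq : 0 < q) {G : Set (NonemptyCompacts ℂ)} (hG : MeasurableSet G) :
    (fk R hδ hp0 hp1 hq : Measure (NonemptyCompacts ℂ)).real G =
      (∑ F ∈ (free R δ).powerset, wt R δ p q F * ind (R.trace hδ F ∈ G)) / Zfk R δ p q := by
  have hZ := Zfk_pos R δ hp0 hp1 hq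
  show ((fkM R hδ p q) G).toReal = _
  rw [fkM_apply R hδ hp0 hp1 hq hG, ENNReal.toReal_ofReal]
  apply div_nonneg _ hZ.le
  exact Finset.sum_nonneg fun F _ => mul_nonneg (wt_nonneg R δ hp0 hp1 hq F).le (ind_nonneg _)

theorem law_real (R : H934E.Rect) {δ : ℝ} (hδ : 0 < δ) {G : Set (NonemptyCompacts ℂ)}
    (hG : MeasurableSet G) : (R.law hδ : Measure (NonemptyCompacts ℂ)).real G =
      Pr (fun _ => 1/2) (R.edges δ) (fun F => R.trace hδ F ∈ G) := by
  show ((R.lawM hδ) G).toReal = _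
  rw [R.lawM_apply hδ hG, ENNReal.toReal_ofReal]
  exact Pr_nonneg (fun _ => by norm_num) _ _

theorem mono_th {G : Set (NonemptyCompacts ℂ)} {q : ℝ} (h0 : 0 ≤ q) (h1 : q ≤ 1)
    (S : Finset Edg) (T : Finset Edg → NonemptyCompacts ℂ) {H : Set (NonemptyCompacts ℂ)}
    (h : G ⊆ H) : Pr (fun _ => q) S (fun F => T F ∈ G) ≤ Pr (fun _ => q) S (fun F => T F ∈ H) :=
  Pr_mono (fun _ => ⟨h0, h1⟩) fun _ _ hF => h hF

/-- **One side of the comparison.** -/
theorem one_side (R : H934E.Rect) {ε : ℝ} (hε : 0 < ε) : ∃ C : ℝ, 0 < C ∧ ∃ δ0 : ℝ, 0 < δ0 ∧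
    ∀ δ : ℝ, ∀ hδ : 0 < δ, δ ≤ δ0 → ∀ p q : ℝ, ∀ hp0 : 0 < p, ∀ hp1 : p < 1, ∀ hq : 0 < q,
    ∀ G : Set (NonemptyCompacts ℂ), MeasurableSet G →
    (fk R hδ hp0 hp1 hq : Measure (NonemptyCompacts ℂ)).real G ≤
      (R.law hδ : Measure (NonemptyCompacts ℂ)).real (Metric.thickening ε G) +
        C * (|p - 1/2| + |q - 1|) * δ ^ (-(3/4 : ℝ)) := by
  obtain ⟨M, hM, δ0, hδ0, hmain⟩ := main_ineq R (half_pos hε)
  refine ⟨6 * M + 8, by positivity, min 1 δ0, by positivity, ?_⟩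
  intro δ hδ hle p q hp0 hp1 hq G hG
  rw [le_min_iff] at hle
  obtain ⟨l1, l2⟩ := hle
  obtain ⟨s, hs⟩ : ∃ s, s = |p - 1/2| + |q - 1| := ⟨_, rfl⟩
  have hs0 : 0 ≤ s := by rw [hs]; positivity
  have hd : 1 ≤ δ ^ (-(3/4 : ℝ)) := Real.one_le_rpow_of_pos_of_le_one_of_nonpos hδ l1 (by norm_num)
  obtain ⟨d, hdd⟩ : ∃ d, d = δ ^ (-(3/4 : ℝ)) := ⟨_, rfl⟩
  rw [← hs, ← hdd]
  rw [← hdd] at hd
  have hlaw0 : 0 ≤ (R.law hδ : Measure (NonemptyCompacts ℂ)).real (Metric.thickening ε G) :=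
    measureReal_nonneg
  by_cases hs8 : s ≤ 1/8
  · have hC := condIn_fk R δ hp0 hp1 hq (by rw [← hs]; exact hs8)
    rw [← hs] at hC
    have a1 := hmain δ hδ l2 (1/2 - 2 * s) (1/2 + 2 * s) (by linarith) (by linarith)
      (by linarith) (by linarith) _ hC G (1/2 + 2 * s) (Or.inr rfl)
    have hZ := Zfk_pos R δ hp0 hp1 hq
    have e1 : |1/2 - 2 * s - 1/2| = 2 * s := by
      rw [show 1/2 - 2 * s - 1/2 = -(2 * s) by ring, abs_neg, abs_of_nonneg (by positivity)]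
    have e2 : |1/2 + 2 * s - 1/2| = 2 * s := by
      rw [show 1/2 + 2 * s - 1/2 = 2 * s by ring, abs_of_nonneg (by positivity)]
    rw [e1, e2, ← hdd] at a1
    have b1 : (fk R hδ hp0 hp1 hq : Measure (NonemptyCompacts ℂ)).real G ≤
        Pr (fun _ => 1/2 + 2 * s) (R.edges δ)
          (fun F => R.trace hδ F ∈ Metric.thickening (ε / 2) G) + M * (2 * s + 2 * s) * d := by
      rw [fk_real R hδ hp0 hp1 hq hG, div_le_iff₀ hZ, mul_comm]
      exact a1
    -- the independent model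
    have hP := (condIn_prod (β := 1/2 + 2 * s) (by linarith) (by linarith) (free R δ)).mono
      (α' := 1/2) (β' := 1/2 + 2 * s) (by linarith) le_rfl
    have a2 := hmain δ hδ l2 (1/2) (1/2 + 2 * s) (by linarith) (by linarith)
      (by linarith) (by linarith) _ hP (Metric.thickening (ε / 2) G) (1/2) (Or.inl rfl)
    rw [e2, sub_self, abs_zero, zero_add, ← hdd] at a2
    have e3 : ∑ F ∈ (free R δ).powerset, (∏ _e ∈ F, (1/2 + 2 * s)) *
        ∏ _e ∈ free R δ \ F, (1 - (1/2 + 2 * s)) = 1 := by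
      have := Ex_const (fun _ : Edg => 1/2 + 2 * s) (free R δ) 1
      unfold Ex at this
      simpa only [mul_one] using this
    rw [e3, one_mul] at a2
    have e4 : Pr (fun _ => 1/2 + 2 * s) (R.edges δ)
        (fun F => R.trace hδ F ∈ Metric.thickening (ε / 2) G) =
        ∑ F ∈ (free R δ).powerset, (∏ _e ∈ F, (1/2 + 2 * s)) *
        (∏ _e ∈ free R δ \ F, (1 - (1/2 + 2 * s))) *
          ind (R.trace hδ F ∈ Metric.thickening (ε / 2) G) := by
      rw [Pr_local (free_sub R δ) (fun F hF => by rw [trace_free hδ hF])]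
      rfl
    rw [← e4] at a2
    have a3 := mono_th (q := 1/2) (by norm_num) (by norm_num) (R.edges δ) (R.trace hδ)
      (Metric.thickening_thickening_subset (ε / 2) (ε / 2) G)
    rw [add_halves, ← law_real R hδ (G := Metric.thickening ε G)
      Metric.isOpen_thickening.measurableSet] at a3
    have : 0 ≤ s * d := by positivity
    nlinarith
  · push Not at hs8
    have h1 : (fk R hδ hp0 hp1 hq : Measure (NonemptyCompacts ℂ)).real G ≤ 1 :=
      measureReal_le_one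
    have h2 : 1 ≤ 8 * s * d := by nlinarith
    have h3 : 0 ≤ M * s * d := by positivity
    nlinarith

/-- **Both sides.** -/
theorem two_sides (R : H934E.Rect) {ε : ℝ} (hε : 0 < ε) : ∃ C : ℝ, 0 < C ∧ ∃ δ0 : ℝ, 0 < δ0 ∧
    ∀ δ : ℝ, ∀ hδ : 0 < δ, δ ≤ δ0 → ∀ p q : ℝ, ∀ hp0 : 0 < p, ∀ hp1 : p < 1, ∀ hq : 0 < q,
    ∀ G : Set (NonemptyCompacts ℂ), MeasurableSet G →
    (fk R hδ hp0 hp1 hq : Measure (NonemptyCompacts ℂ)).real G ≤
      (R.law hδ : Measure (NonemptyCompacts ℂ)).real (Metric.thickening ε G) +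
        C * (|p - 1/2| + |q - 1|) * δ ^ (-(3/4 : ℝ)) ∧
    (R.law hδ : Measure (NonemptyCompacts ℂ)).real G ≤
      (fk R hδ hp0 hp1 hq : Measure (NonemptyCompacts ℂ)).real (Metric.thickening ε G) +
        C * (|p - 1/2| + |q - 1|) * δ ^ (-(3/4 : ℝ)) := by
  obtain ⟨C, hC, δ0, hδ0, h⟩ := one_side R hε
  refine ⟨C, hC, δ0, hδ0, ?_⟩
  intro δ hδ hle p q hp0 hp1 hq G hG
  refine ⟨h δ hδ hle p q hp0 hp1 hq G hG, ?_⟩
  have hT : MeasurableSet (Metric.thickening ε G) := Metric.isOpen_thickening.measurableSet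
  have h1 := h δ hδ hle p q hp0 hp1 hq (Metric.thickening ε G)ᶜ hT.compl
  have h2 : (R.law hδ : Measure (NonemptyCompacts ℂ)).real
      (Metric.thickening ε (Metric.thickening ε G)ᶜ) ≤
      (R.law hδ : Measure (NonemptyCompacts ℂ)).real Gᶜ := by
    apply measureReal_mono _ (measure_ne_top _ _)
    have := Metric.subset_compl_thickening_compl_thickening_self ε G
    rwa [Set.subset_compl_comm] at this
  rw [probReal_compl_eq_one_sub hT] at h1
  rw [probReal_compl_eq_one_sub hG] at h2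
  linarith

end Pool.Agent.K9h80.WN
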