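import Pool.Agent.K9h80.WN.Asm

/-!
# Comparison of the random cluster model with critical percolation
-/

set_option autoImplicit false

namespace Pool.Agent.K9h80.WN

open H974 H973 Finset H342P H984P H984N MeasureTheory TopologicalSpace

/-- the number of centers -/
theorem idx_card {K : ℤ} (hK : 0 ≤ K) : ((idx K).card : ℝ) = (2 * K + 1) ^ 2 := by
  unfold idx
  rw [Finset.card_product, Int.card_Icc]
  have : ((K + 1 - -K).toNat : ℝ) = 2 * K + 1 := by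
    have h : ((K + 1 - -K).toNat : ℤ) = 2 * K + 1 := by omega
    exact_mod_cast h
  push_cast
  rw [this]
  ring

theorem ex_phi (D : Dm) (r K : ℤ) (q : ℝ) (S : Finset Edg) :
    Ex (fun _ => q) S (Phi D r K) = ∑ i ∈ idx K, (Pr (fun _ => q) S (UE D (ctr D (r - 3) i) r) -
      Pr (fun _ => q) S (VE D (ctr D (r - 3) i) r)) := by
  unfold Phi
  rw [Ex_sum]
  exact Finset.sum_congr rfl fun i _ => Ex_sub _ _ _ _

/-- the parameters of the grid -/
theorem grid_par (R : H934E.Rect) {ε : ℝ} (hε : 0 < ε) : ∃ K : ℤ, 0 ≤ K ∧ ∃ δ0 : ℝ, 0 < δ0 ∧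
    ∀ δ : ℝ, 0 < δ → δ ≤ δ0 → ∃ r : ℤ, 4 ≤ r ∧ 4 * r * δ < ε ∧
      -(K * (r - 3)) ≤ R.x0 δ ∧ R.x1 δ ≤ K * (r - 3) ∧ R.y1 δ ≤ K * (r - 3) := by
  have h1 : 0 < R.A := R.hA
  have h2 : 0 < R.B := R.hB
  have h3 : 0 < R.H := R.hH
  obtain ⟨K, hK⟩ : ∃ K : ℤ, K = ⌈16 * (R.A + R.B + R.H) / ε⌉ := ⟨_, rfl⟩
  have hK' : 16 * (R.A + R.B + R.H) / ε ≤ K := hK ▸ Int.le_ceil _
  have hK0 : (0:ℝ) ≤ K := le_trans (by positivity) hK'
  refine ⟨K, by exact_mod_cast hK0, ε / 64, by positivity, ?_⟩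
  intro δ hδ hle
  obtain ⟨r, hr⟩ : ∃ r : ℤ, r = ⌊ε / (8 * δ)⌋ := ⟨_, rfl⟩
  have r1 : (r:ℝ) ≤ ε / (8 * δ) := hr ▸ Int.floor_le _
  have r2 : ε / (8 * δ) < r + 1 := hr ▸ Int.lt_floor_add_one _
  have e1 : 8 ≤ ε / (8 * δ) := by rw [le_div_iff₀ (by positivity)]; linarith
  have r3 : (7:ℝ) < r := by linarith
  have r4 : 7 < r := by exact_mod_cast r3
  -- `r - 3` is at least a quarter
  have r5 : ε / (8 * δ) / 2 ≤ (r:ℝ) - 3 := by linarith
  have r6 : (R.A + R.B + R.H) / δ ≤ K * ((r:ℝ) - 3) := by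
    have : (R.A + R.B + R.H) / δ = (16 * (R.A + R.B + R.H) / ε) * (ε / (8 * δ) / 2) := by
      field_simp; norm_num
    rw [this]
    exact mul_le_mul hK' r5 (by positivity) hK0
  obtain ⟨⟨b1, b2⟩, ⟨b3, b4⟩, ⟨b5, b6⟩, b7, b8⟩ := R.small_geom2 hδ
  have c1 : 0 < R.A / δ := by positivity
  have c2 : 0 < R.B / δ := by positivity
  have c3 : 0 < R.H / δ := by positivity
  rw [add_div, add_div] at r6
  refine ⟨r, by omega, ?_, ?_, ?_, ?_⟩
  · have : r * (8 * δ) ≤ ε := by rwa [le_div_iff₀ (by positivity)] at r1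
    nlinarith
  · have : ((-(K * (r - 3)) : ℤ) : ℝ) ≤ R.x0 δ := by push_cast; linarith
    exact_mod_cast this
  · have : (R.x1 δ : ℝ) ≤ ((K * (r - 3) : ℤ) : ℝ) := by push_cast; linarith
    exact_mod_cast this
  · have : (R.y1 δ : ℝ) ≤ ((K * (r - 3) : ℤ) : ℝ) := by push_cast; linarith
    exact_mod_cast this

/-- **The main inequality.** -/
theorem main_ineq (R : H934E.Rect) {ε : ℝ} (hε : 0 < ε) : ∃ M : ℝ, 0 < M ∧ ∃ δ0 : ℝ, 0 < δ0 ∧
    ∀ δ : ℝ, ∀ hδ : 0 < δ, δ ≤ δ0 → ∀ α β : ℝ, 0 ≤ α → α ≤ 1 → 0 ≤ β → β ≤ 1 →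
    ∀ w : Finset Edg → ℝ, CondIn α β (free R δ) w → ∀ G : Set (NonemptyCompacts ℂ),
    ∀ θ : ℝ, (θ = α ∨ θ = β) →
    ∑ F ∈ (free R δ).powerset, w F * ind (R.trace hδ F ∈ G) ≤
      (∑ F ∈ (free R δ).powerset, w F) *
        (Pr (fun _ => θ) (R.edges δ) (fun F => R.trace hδ F ∈ Metric.thickening ε G) +
          M * (|α - 1/2| + |β - 1/2|) * δ ^ (-(3/4 : ℝ))) := by
  obtain ⟨K, hK0, δ1, hδ1, hgrid⟩ := grid_par R hε
  obtain ⟨δ2, hδ2, hok⟩ := ok_dm R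
  have h1 : 0 < R.A := R.hA
  have h2 : 0 < R.B := R.hB
  have h3 : 0 < R.H := R.hH
  set ρ : ℝ := R.A + R.B + R.H + 1 + ε with hρ
  have hρ0 : 0 ≤ ρ := by positivity
  obtain ⟨CU, hCU, hU⟩ := stabU ρ hρ0
  obtain ⟨CV, hCV, hV⟩ := stabV ρ hρ0
  have hKr : (0:ℝ) ≤ K := by exact_mod_cast hK0
  refine ⟨(2 * K + 1) ^ 2 * (CU + CV), by positivity, min 1 (min δ1 δ2), by positivity, ?_⟩
  intro δ hδ hle α β hα0 hα1 hβ0 hβ1 w hw G θ hθ
  simp only [le_min_iff] at hle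
  obtain ⟨l0, l1, l2⟩ := hle
  obtain ⟨r, hr4, hrε, g1, g2, g3⟩ := hgrid δ hδ l1
  have hD := hok δ hδ l2
  have hFr := fr_dm R (ρ := ρ) hδ l0 (by rw [hρ]; linarith)
  have hr0 : (4:ℝ) ≤ r := by exact_mod_cast hr4
  have hδr : δ * r ≤ ρ := by rw [hρ]; nlinarith
  set D := dm R δ with hDd
  -- the bound for the increasing function
  have hloc : ∀ q : ℝ, Ex (fun _ => q) (free R δ) (Phi D r K) =
      Ex (fun _ => q) (R.edges δ) (Phi D r K) := by
    intro q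
    symm
    apply Ex_local (free_sub R δ)
    intro F hF
    unfold Phi
    exact Finset.sum_congr rfl fun i _ => by
      rw [ind_congr (UE_free hF _ _), ind_congr (VE_free hF _ _)]
  have hphi : Ex (fun _ => β) (free R δ) (Phi D r K) - Ex (fun _ => α) (free R δ) (Phi D r K) ≤
      (2 * K + 1) ^ 2 * (CU + CV) * (|α - 1/2| + |β - 1/2|) * δ ^ (-(3/4 : ℝ)) := by
    rw [hloc, hloc, ex_phi, ex_phi, ← Finset.sum_sub_distrib]
    have hb : ∀ i ∈ idx K, (Pr (fun _ => β) (R.edges δ) (UE D (ctr D (r - 3) i) r) -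
        Pr (fun _ => β) (R.edges δ) (VE D (ctr D (r - 3) i) r)) -
        (Pr (fun _ => α) (R.edges δ) (UE D (ctr D (r - 3) i) r) -
        Pr (fun _ => α) (R.edges δ) (VE D (ctr D (r - 3) i) r)) ≤
        (CU + CV) * (|α - 1/2| + |β - 1/2|) * δ ^ (-(3/4 : ℝ)) := by
      intro i _
      have hc := ctr_in hD (r - 3) i
      generalize ctr D (r - 3) i = c at hc
      rw [← dm_edges, ← hDd]
      have u1 := abs_le.mp (hU D hD δ hδ l0 hFr c r (by omega) hδr α hα0 hα1)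
      have u2 := abs_le.mp (hU D hD δ hδ l0 hFr c r (by omega) hδr β hβ0 hβ1)
      have v1 := abs_le.mp (hV D hD δ hδ l0 hFr c r (by omega) hδr hc α hα0 hα1)
      have v2 := abs_le.mp (hV D hD δ hδ l0 hFr c r (by omega) hδr hc β hβ0 hβ1)
      nlinarith
    refine (Finset.sum_le_sum hb).trans ?_
    rw [Finset.sum_const, nsmul_eq_mul, idx_card hK0]
    apply le_of_eq
    ring
  -- the trace over the free edges
  have htr : ∀ q : ℝ, Pr (fun _ => q) (free R δ)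
      (fun F => R.trace hδ F ∈ Metric.thickening ε G) =
      Pr (fun _ => q) (R.edges δ) (fun F => R.trace hδ F ∈ Metric.thickening ε G) := by
    intro q
    symm
    apply Pr_local (free_sub R δ)
    intro F hF
    rw [trace_free hδ hF]
  have hZ := hw.sum_pos
  rcases hθ with rfl | rfl
  · have hs := sandwich hβ1 hα0 hw (a := fun F => ind (R.trace hδ F ∈ G))
      (b := fun F => Phi D r K F)
      (h := fun F => Phi D r K F - ind (R.trace hδ F ∈ Metric.thickening ε G)) (by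
        intro F₀ F F₁ k1 k2 k3
        have := det_cmp hδ hD hr4 g1 g2 g3 hrε G k1 k2 (k3.trans (free_sub R δ)) (Or.inl rfl)
        beta_reduce
        linarith)
    refine hs.trans (mul_le_mul_of_nonneg_left ?_ hZ.le)
    rw [Ex_sub, ← htr]
    unfold Pr
    linarith
  · have hs := sandwich hβ1 hα0 hw (a := fun F => ind (R.trace hδ F ∈ G))
      (b := fun F => ind (R.trace hδ F ∈ Metric.thickening ε G) + Phi D r K F)
      (h := fun F => Phi D r K F) (by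
        intro F₀ F F₁ k1 k2 k3
        have := det_cmp hδ hD hr4 g1 g2 g3 hrε G k1 k2 (k3.trans (free_sub R δ)) (Or.inr rfl)
        beta_reduce
        linarith)
    refine hs.trans (mul_le_mul_of_nonneg_left ?_ hZ.le)
    rw [Ex_add, ← htr]
    unfold Pr
    linarith

end Pool.Agent.K9h80.WN
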