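import Pool.Agent.H974R2.Basic

/-!
# Comparison of a dependent model with independent ones

`w` is a positive weight on the subsets of `S` such that the conditional probability of every
element, given all the others, is between `α` and `β`. If `a F ≤ b F₊ - h F₋` for all
`F₋ ⊆ F ⊆ F₊ ⊆ S`, then the mean of `a` under the law with the weight `w` is at most the mean of
`b` at the density `β` minus the mean of `h` at the density `α`.
-/

set_option autoImplicit false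

namespace Pool.Agent.K9h80.WN

open H974 Finset

variable {E : Type*} [DecidableEq E]

/-- the conditional probabilities of the elements of `S`, given the other ones, are in `[α, β]` -/
def CondIn (α β : ℝ) (S : Finset E) (w : Finset E → ℝ) : Prop :=
  (∀ F ⊆ S, 0 < w F) ∧ ∀ e ∈ S, ∀ F ⊆ S, e ∉ F →
    α * (w (insert e F) + w F) ≤ w (insert e F) ∧ w (insert e F) ≤ β * (w (insert e F) + w F)

theorem CondIn.sum_pos {α β : ℝ} {S : Finset E} {w : Finset E → ℝ} (h : CondIn α β S w) :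
    0 < ∑ F ∈ S.powerset, w F :=
  Finset.sum_pos (fun F hF => h.1 F (mem_powerset.mp hF)) ⟨∅, empty_mem_powerset S⟩

theorem sandwich {α β : ℝ} (h1 : β ≤ 1) (h0 : 0 ≤ α) {S : Finset E} :
    ∀ {w a b h : Finset E → ℝ}, CondIn α β S w →
      (∀ F₀ F F₁ : Finset E, F₀ ⊆ F → F ⊆ F₁ → F₁ ⊆ S → a F ≤ b F₁ - h F₀) →
      ∑ F ∈ S.powerset, w F * a F ≤
        (∑ F ∈ S.powerset, w F) * (Ex (fun _ => β) S b - Ex (fun _ => α) S h) := by
  induction S using Finset.induction_on with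
  | empty =>
    intro w a b h hw hab
    simp only [powerset_empty, sum_singleton, Ex_empty]
    exact mul_le_mul_of_nonneg_left (hab ∅ ∅ ∅ subset_rfl subset_rfl subset_rfl)
      (hw.1 ∅ subset_rfl).le
  | insert e S he ih =>
    intro w a b h hw hab
    have hS : S ⊆ insert e S := subset_insert _ _
    have hins : ∀ {F : Finset E}, F ⊆ S → insert e F ⊆ insert e S := fun hF =>
      insert_subset_insert _ hF
    have hw0 : CondIn α β S w :=
      ⟨fun F hF => hw.1 F (hF.trans hS), fun x hx F hF hxF =>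
        hw.2 x (hS hx) F (hF.trans hS) hxF⟩
    have hw1 : CondIn α β S (fun F => w (insert e F)) := by
      refine ⟨fun F hF => hw.1 _ (hins hF), fun x hx F hF hxF => ?_⟩
      have hxe : x ≠ e := fun h => he (h ▸ hx)
      have := hw.2 x (hS hx) (insert e F) (hins hF) (by
        rw [mem_insert, not_or]; exact ⟨hxe, hxF⟩)
      beta_reduce
      rw [Finset.insert_comm e x F]
      exact this
    rw [sum_powerset_insert he, sum_powerset_insert he, Ex_insert _ he, Ex_insert _ he]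
    obtain ⟨Z0, hZ0⟩ : ∃ z, z = ∑ F ∈ S.powerset, w F := ⟨_, rfl⟩
    obtain ⟨Z1, hZ1⟩ : ∃ z, z = ∑ F ∈ S.powerset, w (insert e F) := ⟨_, rfl⟩
    obtain ⟨Y0, hY0⟩ : ∃ z, z = ∑ F ∈ S.powerset, w F * a F := ⟨_, rfl⟩
    obtain ⟨Y1, hY1⟩ : ∃ z, z = ∑ F ∈ S.powerset, w (insert e F) * a (insert e F) := ⟨_, rfl⟩
    obtain ⟨B0, hB0⟩ : ∃ z, z = Ex (fun _ => β) S b := ⟨_, rfl⟩
    obtain ⟨B1, hB1⟩ : ∃ z, z = Ex (fun _ => β) S (fun F => b (insert e F)) := ⟨_, rfl⟩
    obtain ⟨H0, hH0⟩ : ∃ z, z = Ex (fun _ => α) S h := ⟨_, rfl⟩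
    obtain ⟨H1, hH1⟩ : ∃ z, z = Ex (fun _ => α) S (fun F => h (insert e F)) := ⟨_, rfl⟩
    rw [← hZ0, ← hZ1, ← hY0, ← hY1, ← hB0, ← hB1, ← hH0, ← hH1]
    have pZ0 : 0 < Z0 := hZ0 ▸ hw0.sum_pos
    have pZ1 : 0 < Z1 := hZ1 ▸ hw1.sum_pos
    have i1 : Y1 ≤ Z1 * (B1 - H1) := by
      rw [hY1, hZ1, hB1, hH1]
      exact ih hw1 fun F₀ F F₁ k1 k2 k3 =>
        hab _ _ _ (insert_subset_insert _ k1) (insert_subset_insert _ k2) (hins k3)
    have i2 : Y1 ≤ Z1 * (B1 - H0) := by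
      rw [hY1, hZ1, hB1, hH0]
      exact ih hw1 fun F₀ F F₁ k1 k2 k3 =>
        hab _ _ _ (k1.trans (subset_insert _ _)) (insert_subset_insert _ k2) (hins k3)
    have i3 : Y0 ≤ Z0 * (B1 - H0) := by
      rw [hY0, hZ0, hB1, hH0]
      exact ih hw0 fun F₀ F F₁ k1 k2 k3 =>
        hab _ _ _ k1 (k2.trans (subset_insert _ _)) (hins k3)
    have i4 : Y0 ≤ Z0 * (B0 - H0) := by
      rw [hY0, hZ0, hB0, hH0]
      exact ih hw0 fun F₀ F F₁ k1 k2 k3 => hab _ _ _ k1 k2 (k3.trans hS)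
    have j1 : α * (Z1 + Z0) ≤ Z1 := by
      rw [hZ1, hZ0, ← sum_add_distrib, mul_sum]
      exact sum_le_sum fun F hF => (hw.2 e (mem_insert_self _ _) F
        ((mem_powerset.mp hF).trans hS) fun h => he (mem_powerset.mp hF h)).1
    have j2 : Z1 ≤ β * (Z1 + Z0) := by
      rw [hZ1, hZ0, ← sum_add_distrib, mul_sum]
      exact sum_le_sum fun F hF => (hw.2 e (mem_insert_self _ _) F
        ((mem_powerset.mp hF).trans hS) fun h => he (mem_powerset.mp hF h)).2
    obtain ⟨x1, hx1⟩ : ∃ x, x = Y1 / Z1 := ⟨_, rfl⟩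
    obtain ⟨x0, hx0⟩ : ∃ x, x = Y0 / Z0 := ⟨_, rfl⟩
    have e1 : Y1 = Z1 * x1 := by rw [hx1]; field_simp
    have e0 : Y0 = Z0 * x0 := by rw [hx0]; field_simp
    rw [e1] at i1 i2
    rw [e0] at i3 i4
    have k1 : x1 ≤ B1 - H1 := le_of_mul_le_mul_left i1 pZ1
    have k2 : x1 ≤ B1 - H0 := le_of_mul_le_mul_left i2 pZ1
    have k3 : x0 ≤ B1 - H0 := le_of_mul_le_mul_left i3 pZ0
    have k4 : x0 ≤ B0 - H0 := le_of_mul_le_mul_left i4 pZ0
    rw [e1, e0]
    have c1 : 0 ≤ α * (Z1 + Z0) := by positivity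
    have c2 : 0 ≤ Z1 - α * (Z1 + Z0) := by linarith
    have c3 : 0 ≤ β * (Z1 + Z0) - Z1 := by linarith
    have c4 : 0 ≤ (Z1 + Z0) - β * (Z1 + Z0) := by nlinarith
    have m1 := mul_le_mul_of_nonneg_left k1 c1
    have m2 := mul_le_mul_of_nonneg_left k2 c2
    have m3 := mul_le_mul_of_nonneg_left k3 c3
    have m4 := mul_le_mul_of_nonneg_left k4 c4
    nlinarith

end Pool.Agent.K9h80.WN
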