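import Pool.Agent.K9h80.WN.Ev

/-!
# Near-critical stability of the two events
-/

set_option autoImplicit false

namespace Pool.Agent.K9h80.WN

open H974 H973 H12S Finset H342P H984P H984N TH291.NW

theorem exists_N (ρ : ℝ) {δ : ℝ} (hδ : 0 < δ) : ∃ N : ℕ, ρ + δ ≤ δ * N := by
  refine ⟨⌈(ρ + δ) / δ⌉₊, ?_⟩
  have h := Nat.le_ceil ((ρ + δ) / δ)
  rw [div_le_iff₀ hδ] at h
  linarith

/-- the rectangle at mesh `δ` is in the square of half side `ρ` -/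
structure Fr (ρ δ : ℝ) (D : Dm) : Prop where
  l_ge : -ρ ≤ δ * ((D.l : ℝ) - 1)
  r_le : δ * ((D.r : ℝ) + 1) ≤ ρ
  h_le : δ * ((D.h : ℝ) + 1) ≤ ρ

theorem Fr.int {ρ δ : ℝ} (hδ : 0 < δ) {D : Dm} (h : Fr ρ δ D) {N : ℕ} (hN : ρ + δ ≤ δ * N) :
    -(N:ℤ) + 1 ≤ D.l ∧ D.r + 1 ≤ N ∧ D.h + 1 ≤ N := by
  obtain ⟨h1, h2, h3⟩ := h
  have e1 : δ * (-(N:ℝ) + 1) ≤ δ * ((D.l:ℝ) - 1) := by nlinarith
  have e2 : δ * ((D.r:ℝ) + 1) ≤ δ * N := by linarith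
  have e3 : δ * ((D.h:ℝ) + 1) ≤ δ * N := by linarith
  have f1 := le_of_mul_le_mul_left e1 hδ
  have f2 := le_of_mul_le_mul_left e2 hδ
  have f3 := le_of_mul_le_mul_left e3 hδ
  refine ⟨?_, ?_, ?_⟩
  · have : -(N:ℝ) + 1 ≤ (D.l:ℝ) := by linarith
    exact_mod_cast this
  · exact_mod_cast f2
  · exact_mod_cast f3

theorem convex_Rc (a b c d : ℝ) : Convex ℝ (Rc a b c d) := (convex_Ioo a b).prod (convex_Ioo c d)

theorem rc_int {δ : ℝ} (hδ : 0 < δ) {a b c d : ℤ} {v : Vtx} :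
    pt δ v ∈ Rc (δ * (a - 1/2)) (δ * (b + 1/2)) (δ * (c - 1/2)) (δ * (d + 1/2)) ↔
      inR a b c d v := by
  obtain ⟨x, y⟩ := v
  unfold Rc pt inR
  simp only [Set.mem_ofPred_eq]
  have k1 : ∀ s t : ℤ, δ * ((s:ℝ) - 1/2) < δ * t ↔ s ≤ t := by
    intro s t
    rw [mul_lt_mul_iff_right₀ hδ]
    constructor
    · intro h
      have : (s:ℝ) < t + 1 := by linarith
      have : s < t + 1 := by exact_mod_cast this
      omega
    · intro h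
      have : (s:ℝ) ≤ t := by exact_mod_cast h
      linarith
  have k2 : ∀ s t : ℤ, δ * (t:ℝ) < δ * ((s:ℝ) + 1/2) ↔ t ≤ s := by
    intro s t
    rw [mul_lt_mul_iff_right₀ hδ]
    constructor
    · intro h
      have : (t:ℝ) < s + 1 := by linarith
      have : t < s + 1 := by exact_mod_cast this
      omega
    · intro h
      have : (t:ℝ) ≤ s := by exact_mod_cast h
      linarith
  rw [k1, k1, k2, k2]

theorem arc_near {D : Dm} (hD : D.Ok) {δ : ℝ} (hδ : 0 < δ) {v : Vtx} (h : v ∈ arcV D) :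
    ∃ x ∈ Bd (δ * ((D.l:ℝ) - 1/2)) (δ * ((D.r:ℝ) + 1/2)) (δ * (((0:ℤ):ℝ) - 1/2))
      (δ * ((D.h:ℝ) + 1/2)), dist x (pt δ v) ≤ 1 * δ := by
  obtain ⟨d1, d2, d3, d4, d5⟩ := hD
  obtain ⟨x, y⟩ := v
  have hle : ∀ s t : ℝ, s ≤ t → δ * s ≤ δ * t := fun s t g => mul_le_mul_of_nonneg_left g hδ.le
  have dd : ∀ y1 y2 : ℝ, |y1 - x| ≤ 1 → |y2 - y| ≤ 1 →
      dist ((δ * y1, δ * y2) : ℝ × ℝ) (pt δ (x, y)) ≤ 1 * δ := by
    intro y1 y2 g1 g2
    rw [dist_pt]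
    simp only
    rw [← mul_sub, ← mul_sub, abs_mul, abs_mul, abs_of_pos hδ]
    constructor <;> nlinarith
  have r1 : (D.l:ℝ) < 0 := by exact_mod_cast d1
  have r2 : (0:ℝ) < D.r := by exact_mod_cast d2
  have r3 : (0:ℝ) < D.h := by exact_mod_cast d3
  have r5 : (D.t:ℝ) ≤ D.r := by exact_mod_cast d5
  have hz : |(0:ℝ)| ≤ 1 := by norm_num
  unfold arcV at h
  simp only [Set.mem_ofPred_eq] at h
  rcases h with ⟨h0, h1, h2⟩ | ⟨h0, h1, h2⟩ | ⟨h0, h1, h2⟩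
  · have a1 : (D.l:ℝ) ≤ x := by exact_mod_cast h1
    have a2 : (x:ℝ) ≤ 0 := by exact_mod_cast h2
    refine ⟨(δ * x, δ * (((0:ℤ):ℝ) - 1/2)), Or.inr ⟨Or.inl rfl, hle _ _ (by linarith),
      hle _ _ (by linarith)⟩, dd _ _ (by rw [sub_self]; exact hz) ?_⟩
    rw [h0]; norm_num [abs_le]
  · have a1 : (0:ℝ) ≤ y := by exact_mod_cast h1
    have a2 : (y:ℝ) ≤ D.h := by exact_mod_cast h2
    refine ⟨(δ * ((D.l:ℝ) - 1/2), δ * y), Or.inl ⟨Or.inl rfl, hle _ _ (by push_cast; linarith),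
      hle _ _ (by linarith)⟩, dd _ _ ?_ (by rw [sub_self]; exact hz)⟩
    rw [h0]; norm_num [abs_le]
  · have a1 : (D.l:ℝ) ≤ x := by exact_mod_cast h1
    have a2 : (x:ℝ) ≤ D.t := by exact_mod_cast h2
    refine ⟨(δ * x, δ * ((D.h:ℝ) + 1/2)), Or.inr ⟨Or.inr rfl, hle _ _ (by linarith),
      hle _ _ (by linarith)⟩, dd _ _ (by rw [sub_self]; exact hz) ?_⟩
    rw [h0]; norm_num [abs_le]

theorem stabU (ρ : ℝ) (hρ : 0 ≤ ρ) : ∃ C : ℝ, 0 < C ∧ ∀ (D : Dm), D.Ok → ∀ δ : ℝ, 0 < δ →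
    δ ≤ 1 → Fr ρ δ D → ∀ (c : Vtx) (r : ℤ), 1 ≤ r → δ * r ≤ ρ → ∀ q : ℝ, 0 ≤ q → q ≤ 1 →
    |Pr (fun _ => q) D.edges (UE D c r) - Pr (fun _ => 1/2) D.edges (UE D c r)| ≤
      C * |q - 1/2| * δ ^ (-(3/4 : ℝ)) := by
  obtain ⟨C, hC, hst⟩ := stab_gen ρ hρ
  refine ⟨C, hC, ?_⟩
  intro D hD δ hδ hδ1 hFr c r hr hrρ q h0 h1
  have hd34 : 0 < δ ^ (-(3/4 : ℝ)) := Real.rpow_pos_of_pos hδ _
  by_cases hI : ∃ u ∈ arcV D, InB c r u
  · obtain ⟨u, hu, huB⟩ := hI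
    have e : ∀ F, F ⊆ D.edges → UE D c r F := fun F _ => ⟨u, huB, arc_clu hD F hu⟩
    rw [Pr_true _ e, Pr_true _ e, sub_self, abs_zero]
    positivity
  have hI' : ∀ u ∈ arcV D, ¬ InQ (c.1 - r) (c.1 + r) (c.2 - r) (c.2 + r) u :=
    fun u hu h => hI ⟨u, hu, h⟩
  obtain ⟨N, hN⟩ := exists_N ρ hδ
  obtain ⟨n1, n2, n3⟩ := hFr.int hδ hN
  set T := SE (DD (δ * ((D.l:ℝ) - 1/2)) (δ * ((D.r:ℝ) + 1/2)) (δ * (((0:ℤ):ℝ) - 1/2))
      (δ * ((D.h:ℝ) + 1/2)) (δ * (((c.1 - r : ℤ):ℝ) + 1/2)) (δ * (((c.1 + r : ℤ):ℝ) - 1/2))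
      (δ * (((c.2 - r : ℤ):ℝ) + 1/2)) (δ * (((c.2 + r : ℤ):ℝ) - 1/2)) ∅) δ N with hT
  have hTS : T ⊆ D.edges := by
    intro e he
    rw [hT, mem_SE] at he
    have g1 := he.2 (left_mem_segment ℝ _ _)
    have g2 := he.2 (right_mem_segment ℝ _ _)
    have k1 := g1.1
    have k2 := g2.1
    rw [Set.union_empty] at k1 k2
    exact mem_RE_of_ends (rc_int hδ |>.1 k1) (rc_int hδ |>.1 k2)
  have hST : ∀ e ∈ D.edges, (¬ InQ (c.1 - r) (c.1 + r) (c.2 - r) (c.2 + r) (src e) ∨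
      ¬ InQ (c.1 - r) (c.1 + r) (c.2 - r) (c.2 + r) (tgt e)) → e ∈ T := by
    intro e he ho
    rw [hT, mem_SE]
    have hends := mem_RE_ends he
    refine ⟨?_, ?_⟩
    · unfold Dm.edges at he
      obtain ⟨x, y, b⟩ := e
      obtain ⟨d1, d2, d3, d4, d5⟩ := hD
      cases b
      · rw [mem_RE_false] at he ⊢; omega
      · rw [mem_RE_true] at he ⊢; omega
    · intro z hz
      refine ⟨Or.inl ?_, seg_out hδ ho hz⟩
      exact (convex_Rc _ _ _ _).segment_subset (rc_int hδ |>.2 hends.1)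
        (rc_int hδ |>.2 hends.2) hz
  have e1 : ∀ q' : ℝ, Pr (fun _ => q') D.edges (UE D c r) =
      Pr (fun _ => q') T (fun F => Cn (arcV D)
        {v | LyQ (c.1 - r) (c.1 + r) (c.2 - r) (c.2 + r) v} (↑F : Set Edg)) := by
    intro q'
    rw [← pr_hit hTS hST hI']
    exact Pr_congr fun F _ => UE_iff hD F
  rw [e1, e1]
  obtain ⟨d1, d2, d3, d4, d5⟩ := hD
  have r1 : (D.l:ℝ) < 0 := by exact_mod_cast d1
  have r2 : (0:ℝ) < D.r := by exact_mod_cast d2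
  have r3 : (0:ℝ) < D.h := by exact_mod_cast d3
  obtain ⟨b1, b2, b3⟩ := hFr
  refine hst _ _ _ _ _ _ _ _ ∅ ?_ ?_ (Set.empty_subset _) ?_ ?_ ?_ ?_ ?_ ?_ δ hδ hδ1 N hN
    _ _ ?_ q h0 h1
  · exact mul_le_mul_of_nonneg_left (by linarith) hδ.le
  · exact mul_le_mul_of_nonneg_left (by push_cast; linarith) hδ.le
  · nlinarith
  · nlinarith
  · push_cast; nlinarith
  · nlinarith
  · push_cast; nlinarith
  · push_cast; nlinarith
  · rintro v (hv | hv)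
    · obtain ⟨x, hx, hd⟩ := arc_near ⟨d1, d2, d3, d4, d5⟩ hδ hv
      exact ⟨x, Or.inl hx, hd⟩
    · obtain ⟨x, hx, hd⟩ := ly_near hδ (by omega) (by omega) hv
      exact ⟨x, Or.inr hx, hd⟩

/-! ### the dual event -/

/-- the boundary points of the dual domain -/
def Pd (D : Dm) (δ : ℝ) : Set (ℝ × ℝ) :=
  {x | x ∈ Bd (δ * ((D.l:ℝ) - 1)) (δ * D.r) (δ * (-1)) (δ * D.h) ∧ ∃ v : Vtx, x = pt δ v}

theorem dseg_in {D : Dm} (hD : D.Ok) {δ : ℝ} (hδ : 0 < δ) {e : Edg} (he : e ∈ dmp D.edges) :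
    segment ℝ (pt δ (src e)) (pt δ (tgt e)) ⊆
      Rc (δ * ((D.l:ℝ) - 1)) (δ * D.r) (δ * (-1)) (δ * D.h) ∪ Pd D δ := by
  intro z hz
  rw [segment_eq_image] at hz
  obtain ⟨θ, ⟨t0, t1⟩, rfl⟩ := hz
  obtain ⟨d1, d2, d3, d4, d5⟩ := hD
  have r1 : (D.l:ℝ) < 0 := by exact_mod_cast d1
  have r2 : (0:ℝ) < D.r := by exact_mod_cast d2
  have r3 : (0:ℝ) < D.h := by exact_mod_cast d3
  have hle : ∀ s t : ℝ, s ≤ t → δ * s ≤ δ * t := fun s t g => mul_le_mul_of_nonneg_left g hδ.le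
  have hlt : ∀ s t : ℝ, s < t → δ * s < δ * t := fun s t g => mul_lt_mul_of_pos_left g hδ
  obtain ⟨x, y, b⟩ := e
  rw [mem_dmp] at he
  unfold Dm.edges at he
  cases b
  · rw [dls_f, mem_RE_true] at he
    obtain ⟨a1, a2, a3, a4⟩ := he
    have e1 : (1 - θ) • pt δ (src (x, y, false)) + θ • pt δ (tgt (x, y, false)) =
        (δ * (x:ℝ), δ * ((y:ℝ) + θ)) := by
      simp only [src_mk, tgt_false, pt, Prod.smul_mk, Prod.mk_add_mk, smul_eq_mul, Prod.mk.injEq]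
      push_cast
      constructor <;> ring
    beta_reduce
    rw [e1]
    have c1 : (D.l:ℝ) ≤ x := by exact_mod_cast a1
    have c2 : (x:ℝ) < D.r := by exact_mod_cast a2
    have c3 : (0:ℝ) ≤ (y:ℝ) + 1 := by exact_mod_cast a3
    have c4 : (y:ℝ) + 1 ≤ D.h := by exact_mod_cast a4
    by_cases hlo : (-1:ℝ) < (y:ℝ) + θ
    · by_cases hhi : (y:ℝ) + θ < D.h
      · exact Or.inl ⟨⟨hlt _ _ (by linarith), hlt _ _ c2⟩, hlt _ _ hlo, hlt _ _ hhi⟩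
      · refine Or.inr ⟨Or.inr ⟨Or.inr ?_, hle _ _ (by linarith), hle _ _ c2.le⟩, (x, y + 1), ?_⟩
        · simp only; congr 1; linarith
        · have : θ = 1 := by linarith
          rw [this]; unfold pt; push_cast; rfl
    · refine Or.inr ⟨Or.inr ⟨Or.inl ?_, hle _ _ (by linarith), hle _ _ c2.le⟩, (x, y), ?_⟩
      · simp only; congr 1; linarith
      · have : θ = 0 := by linarith
        rw [this, add_zero]; rfl
  · rw [dls_t, mem_RE_false] at he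
    obtain ⟨a1, a2, a3, a4⟩ := he
    have e1 : (1 - θ) • pt δ (src (x, y, true)) + θ • pt δ (tgt (x, y, true)) =
        (δ * ((x:ℝ) + θ), δ * (y:ℝ)) := by
      simp only [src_mk, tgt_true, pt, Prod.smul_mk, Prod.mk_add_mk, smul_eq_mul, Prod.mk.injEq]
      push_cast
      constructor <;> ring
    beta_reduce
    rw [e1]
    have c1 : (D.l:ℝ) ≤ (x:ℝ) + 1 := by exact_mod_cast a1
    have c2 : (x:ℝ) + 1 ≤ D.r := by exact_mod_cast a2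
    have c3 : (0:ℝ) ≤ (y:ℝ) := by exact_mod_cast a3
    have c4 : (y:ℝ) < D.h := by exact_mod_cast a4
    by_cases hlo : (D.l:ℝ) - 1 < (x:ℝ) + θ
    · by_cases hhi : (x:ℝ) + θ < D.r
      · exact Or.inl ⟨⟨hlt _ _ hlo, hlt _ _ hhi⟩, hlt _ _ (by linarith), hlt _ _ c4⟩
      · refine Or.inr ⟨Or.inl ⟨Or.inr ?_, hle _ _ (by linarith), hle _ _ c4.le⟩, (x + 1, y), ?_⟩
        · simp only; congr 1; linarith
        · have : θ = 1 := by linarith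
          rw [this]; unfold pt; push_cast; rfl
    · refine Or.inr ⟨Or.inl ⟨Or.inl ?_, hle _ _ (by linarith), hle _ _ c4.le⟩, (x, y), ?_⟩
      · simp only; congr 1; linarith
      · have : θ = 0 := by linarith
        rw [this, add_zero]; rfl

theorem dseg_of {D : Dm} {δ : ℝ} (hδ : 0 < δ) {e : Edg}
    (h : segment ℝ (pt δ (src e)) (pt δ (tgt e)) ⊆
      Rc (δ * ((D.l:ℝ) - 1)) (δ * D.r) (δ * (-1)) (δ * D.h) ∪ Pd D δ) : e ∈ dmp D.edges := by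
  have hm : (1 - (1/2:ℝ)) • pt δ (src e) + (1/2:ℝ) • pt δ (tgt e) ∈
      segment ℝ (pt δ (src e)) (pt δ (tgt e)) := by
    rw [segment_eq_image]
    exact ⟨1/2, ⟨by norm_num, by norm_num⟩, rfl⟩
  have h1 := h hm
  rw [mem_dmp]
  unfold Dm.edges
  obtain ⟨x, y, b⟩ := e
  have lt_of : ∀ s t : ℝ, δ * s < δ * t → s < t := fun s t g => lt_of_mul_lt_mul_left g hδ.le
  cases b
  · have e1 : (1 - (1/2:ℝ)) • pt δ (src (x, y, false)) + (1/2:ℝ) • pt δ (tgt (x, y, false)) =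
        (δ * (x:ℝ), δ * ((y:ℝ) + 1/2)) := by
      simp only [src_mk, tgt_false, pt, Prod.smul_mk, Prod.mk_add_mk, smul_eq_mul, Prod.mk.injEq]
      push_cast
      constructor <;> ring
    rw [e1] at h1
    rcases h1 with ⟨⟨k1, k2⟩, k3, k4⟩ | ⟨-, v, hv⟩
    · simp only at k1 k2 k3 k4
      have l1 := lt_of _ _ k1
      have l2 := lt_of _ _ k2
      have l3 := lt_of _ _ k3
      have l4 := lt_of _ _ k4
      rw [dls_f, mem_RE_true]
      have m1 : D.l < x + 1 := by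
        have : (D.l:ℝ) < (x:ℝ) + 1 := by linarith
        exact_mod_cast this
      have m2 : x < D.r := by exact_mod_cast l2
      have m3 : -2 < y := by
        have : (-2:ℝ) < y := by linarith
        exact_mod_cast this
      have m4 : y < D.h := by
        have : (y:ℝ) < D.h := by linarith
        exact_mod_cast this
      omega
    · exfalso
      unfold pt at hv
      rw [Prod.mk.injEq] at hv
      have h2 := mul_left_cancel₀ hδ.ne' hv.2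
      have h3 : 2 * (y:ℝ) + 1 = 2 * (v.2:ℝ) := by linarith
      have h4 : 2 * y + 1 = 2 * v.2 := by exact_mod_cast h3
      omega
  · have e1 : (1 - (1/2:ℝ)) • pt δ (src (x, y, true)) + (1/2:ℝ) • pt δ (tgt (x, y, true)) =
        (δ * ((x:ℝ) + 1/2), δ * (y:ℝ)) := by
      simp only [src_mk, tgt_true, pt, Prod.smul_mk, Prod.mk_add_mk, smul_eq_mul, Prod.mk.injEq]
      push_cast
      constructor <;> ring
    rw [e1] at h1
    rcases h1 with ⟨⟨k1, k2⟩, k3, k4⟩ | ⟨-, v, hv⟩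
    · simp only at k1 k2 k3 k4
      have l1 := lt_of _ _ k1
      have l2 := lt_of _ _ k2
      have l3 := lt_of _ _ k3
      have l4 := lt_of _ _ k4
      rw [dls_t, mem_RE_false]
      have m1 : D.l < x + 2 := by
        have : (D.l:ℝ) < (x:ℝ) + 2 := by linarith
        exact_mod_cast this
      have m2 : x < D.r := by
        have : (x:ℝ) < D.r := by linarith
        exact_mod_cast this
      have m3 : -1 < y := by exact_mod_cast l3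
      have m4 : y < D.h := by exact_mod_cast l4
      omega
    · exfalso
      unfold pt at hv
      rw [Prod.mk.injEq] at hv
      have h2 := mul_left_cancel₀ hδ.ne' hv.1
      have h3 : 2 * (x:ℝ) + 1 = 2 * (v.1:ℝ) := by linarith
      have h4 : 2 * x + 1 = 2 * v.1 := by exact_mod_cast h3
      omega

theorem outer_near {D : Dm} (hD : D.Ok) {δ : ℝ} (hδ : 0 < δ) {v : Vtx} (h : v ∈ D.outer) :
    pt δ v ∈ Bd (δ * ((D.l:ℝ) - 1)) (δ * D.r) (δ * (-1)) (δ * D.h) := by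
  obtain ⟨d1, d2, d3, d4, d5⟩ := hD
  obtain ⟨x, y⟩ := v
  have hle : ∀ s t : ℝ, s ≤ t → δ * s ≤ δ * t := fun s t g => mul_le_mul_of_nonneg_left g hδ.le
  have r1 : (D.l:ℝ) < 0 := by exact_mod_cast d1
  have r2 : (0:ℝ) < D.r := by exact_mod_cast d2
  have r3 : (0:ℝ) < D.h := by exact_mod_cast d3
  have r4 : (D.l:ℝ) ≤ D.t := by exact_mod_cast d4
  unfold Dm.outer at h
  simp only [Set.mem_ofPred_eq] at h
  unfold pt
  rcases h with ⟨h0, h1, h2⟩ | ⟨h0, h1, h2⟩ | ⟨h0, h1, h2⟩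
  · have a1 : (0:ℝ) ≤ x := by exact_mod_cast h1
    have a2 : (x:ℝ) ≤ D.r := by exact_mod_cast h2
    refine Or.inr ⟨Or.inl ?_, hle _ _ (by linarith), hle _ _ a2⟩
    simp only; rw [h0]; norm_num
  · have a1 : (-1:ℝ) ≤ y := by exact_mod_cast h1
    have a2 : (y:ℝ) ≤ D.h := by exact_mod_cast h2
    refine Or.inl ⟨Or.inr ?_, hle _ _ a1, hle _ _ a2⟩
    simp only; rw [h0]
  · have a1 : (D.t:ℝ) ≤ x := by exact_mod_cast h1
    have a2 : (x:ℝ) ≤ D.r := by exact_mod_cast h2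
    refine Or.inr ⟨Or.inr ?_, hle _ _ (by linarith), hle _ _ a2⟩
    simp only; rw [h0]

theorem stabV (ρ : ℝ) (hρ : 0 ≤ ρ) : ∃ C : ℝ, 0 < C ∧ ∀ (D : Dm), D.Ok → ∀ δ : ℝ, 0 < δ →
    δ ≤ 1 → Fr ρ δ D → ∀ (c : Vtx) (r : ℤ), 1 ≤ r → δ * r ≤ ρ →
    ((D.l ≤ c.1 ∧ c.1 ≤ D.r) ∧ 0 ≤ c.2 ∧ c.2 ≤ D.h) → ∀ q : ℝ, 0 ≤ q → q ≤ 1 →
    |Pr (fun _ => q) D.edges (VE D c r) - Pr (fun _ => 1/2) D.edges (VE D c r)| ≤
      C * |q - 1/2| * δ ^ (-(3/4 : ℝ)) := by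
  obtain ⟨C, hC, hst⟩ := stab_gen ρ hρ
  refine ⟨C, hC, ?_⟩
  intro D hD δ hδ hδ1 hFr c r hr hrρ hc q h0 h1
  have hd34 : 0 < δ ^ (-(3/4 : ℝ)) := Real.rpow_pos_of_pos hδ _
  by_cases hI : ∃ u ∈ D.outer, InF c r u
  · obtain ⟨u, hu, huB⟩ := hI
    have e : ∀ F, F ⊆ D.edges → VE D c r F := fun F _ => ⟨u, huB, u, hu, DReach.refl _ _⟩
    rw [Pr_true _ e, Pr_true _ e, sub_self, abs_zero]
    positivity
  have hI' : ∀ u ∈ D.outer, ¬ InQ (c.1 - r - 1) (c.1 + r) (c.2 - r - 1) (c.2 + r) u :=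
    fun u hu h => hI ⟨u, hu, h⟩
  obtain ⟨N, hN⟩ := exists_N ρ hδ
  obtain ⟨n1, n2, n3⟩ := hFr.int hδ hN
  set T := SE (DD (δ * ((D.l:ℝ) - 1)) (δ * D.r) (δ * (-1)) (δ * D.h)
      (δ * (((c.1 - r - 1 : ℤ):ℝ) + 1/2)) (δ * (((c.1 + r : ℤ):ℝ) - 1/2))
      (δ * (((c.2 - r - 1 : ℤ):ℝ) + 1/2)) (δ * (((c.2 + r : ℤ):ℝ) - 1/2)) (Pd D δ)) δ N with hT
  have hTS : T ⊆ dmp D.edges := by
    intro e he
    rw [hT, mem_SE] at he
    exact dseg_of hδ fun z hz => (he.2 hz).1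
  have hST : ∀ e ∈ dmp D.edges, (¬ InQ (c.1 - r - 1) (c.1 + r) (c.2 - r - 1) (c.2 + r) (src e) ∨
      ¬ InQ (c.1 - r - 1) (c.1 + r) (c.2 - r - 1) (c.2 + r) (tgt e)) → e ∈ T := by
    intro e he ho
    rw [hT, mem_SE]
    refine ⟨?_, fun z hz => ⟨dseg_in hD hδ he hz, seg_out hδ ho hz⟩⟩
    rw [mem_dmp] at he
    unfold Dm.edges at he
    obtain ⟨x, y, b⟩ := e
    obtain ⟨d1, d2, d3, d4, d5⟩ := hD
    cases b
    · rw [dls_f, mem_RE_true] at he; rw [mem_RE_false]; omega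
    · rw [dls_t, mem_RE_false] at he; rw [mem_RE_true]; omega
  have e1 : ∀ q' : ℝ, Pr (fun _ => q') D.edges (VE D c r) =
      Pr (fun _ => 1 - q') T (fun F => Cn D.outer
        {v | LyQ (c.1 - r - 1) (c.1 + r) (c.2 - r - 1) (c.2 + r) v} (↑F : Set Edg)) := by
    intro q'
    rw [← pr_hit hTS hST hI']
    have h2 := H12S.pr_dual (q := q') D.edges (fun F => Cn D.outer
        {v | InQ (c.1 - r - 1) (c.1 + r) (c.2 - r - 1) (c.2 + r) v} (↑F : Set Edg))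
    refine Eq.trans ?_ h2
    exact Pr_congr fun F _ => VE_iff hD hc F
  rw [e1, e1]
  obtain ⟨d1, d2, d3, d4, d5⟩ := hD
  have r1 : (D.l:ℝ) < 0 := by exact_mod_cast d1
  have r2 : (0:ℝ) < D.r := by exact_mod_cast d2
  have r3 : (0:ℝ) < D.h := by exact_mod_cast d3
  obtain ⟨b1, b2, b3⟩ := hFr
  have hmain := hst (δ * ((D.l:ℝ) - 1)) (δ * D.r) (δ * (-1)) (δ * D.h)
      (δ * (((c.1 - r - 1 : ℤ):ℝ) + 1/2)) (δ * (((c.1 + r : ℤ):ℝ) - 1/2))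
      (δ * (((c.2 - r - 1 : ℤ):ℝ) + 1/2)) (δ * (((c.2 + r : ℤ):ℝ) - 1/2)) (Pd D δ)
    (mul_le_mul_of_nonneg_left (by linarith) hδ.le)
    (mul_le_mul_of_nonneg_left (by linarith) hδ.le) (fun x hx => hx.1) (by linarith)
    (by nlinarith) (by nlinarith) (by nlinarith) (by push_cast; nlinarith)
    (by push_cast; nlinarith) δ hδ hδ1 N hN D.outer
    {v | LyQ (c.1 - r - 1) (c.1 + r) (c.2 - r - 1) (c.2 + r) v} (by
      rintro v (hv | hv)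
      · refine ⟨pt δ v, Or.inl (outer_near ⟨d1, d2, d3, d4, d5⟩ hδ hv), ?_⟩
        rw [dist_self]; linarith
      · obtain ⟨x, hx, hd⟩ := ly_near hδ (by omega) (by omega) hv
        exact ⟨x, Or.inr hx, hd⟩) (1 - q) (by linarith) (by linarith)
  rw [← hT] at hmain
  have e2 : (1:ℝ) - 1/2 = 1/2 := by norm_num
  have e3 : |1 - q - 1/2| = |q - 1/2| := by rw [← abs_neg]; congr 1; ring
  rw [e3] at hmain
  rw [e2]
  exact hmain

end Pool.Agent.K9h80.WN
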